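import Pool.Agent.Lib.MP_688fd0_co.ASY.H85.JoinEnd

/-!
The joining lemma (helper85): `join : JoinStatement`.
-/

set_option autoImplicit false

namespace Pool.Agent.Lib.MP_688fd0_co.ASY.H85

open Classical
open Pool.Agent.Lib.MP_688fd0_co.LP (IsP IsPB Conn Cyc Linkage)
open Pool.Agent.Lib.MP_688fd0_co.LP.Reroute (glue rev mem_glue head_mem last_mem two_le)
open Pool.Agent.Lib.MP_688fd0_co.LIN

universe u

variable {V : Type u} {G : SimpleGraph V} {c M : ℕ} {S R W : ℕ → Finset V} {T : ℕ → V → List V}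

/-- orientation of a path with given first and last vertex -/
theorem orient2 {P : List V} {x y : V} (h : IsP G P) (hx : IsEnd P x) (hy : IsEnd P y) (hne : x ≠ y) :
    ∃ Q, IsPB G Q x y ∧ (∀ v, v ∈ Q ↔ v ∈ P) ∧ Q.length = P.length ∧ ∀ v, IsEnd P v → v = x ∨ v = y := by
  obtain ⟨Q, b, hQ, h1, h2, h3⟩ := orient h hy
  have hb : b = x := by
    rcases (isEnd_iff hQ).1 ((h3 x).2 hx) with h | h
    · exact h.symm
    · exact absurd h hne
  subst hb
  exact ⟨Q, hQ, h1, h2, fun v hv => (isEnd_iff hQ).1 ((h3 v).2 hv)⟩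

/-- closing when there are two paths, one with its ends on the left, one with its ends on the right -/
theorem Ladder.finish2 (hL : Ladder G c M S R W T) [Finite V] {i j : ℕ} (hij : i + 4 ≤ j) (hj : j ≤ M)
    {F : Finset (List V)} (hF : St G S R i j F) {P Q : List V} (hP : P ∈ F) (hQ : Q ∈ F) (hPQ : P ≠ Q)
    (hPi : ∀ v, IsEnd P v → v ∈ S i) (hQj : ∀ v, IsEnd Q v → v ∈ S j) (hall : ∀ N ∈ F, N = P ∨ N = Q) :
    ∃ cy, Cyc G cy ∧ (∀ P ∈ F, ∀ v ∈ P, v ∈ cy) ∧ ∀ v ∈ cy, Mid S R 0 M v ∨ ∃ P ∈ F, v ∈ P := by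
  obtain ⟨a, a', hab⟩ := exists_pb (hF.fam.1 P hP).1
  obtain ⟨b, b', hab'⟩ := exists_pb (hF.fam.1 Q hQ).1
  have hea : IsEnd P a := (isEnd_iff hab).2 (Or.inl rfl)
  have hea' : IsEnd P a' := (isEnd_iff hab).2 (Or.inr rfl)
  have heb : IsEnd Q b := (isEnd_iff hab').2 (Or.inl rfl)
  have heb' : IsEnd Q b' := (isEnd_iff hab').2 (Or.inr rfl)
  obtain ⟨K, hK, hKd⟩ := hL.two hij hj (hPi a hea) (hPi a' hea') (pb_ne hab (hF.fam.1 P hP).2) (hQj b heb) (hQj b' heb')
    (pb_ne hab' (hF.fam.1 Q hQ).2)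
  obtain ⟨hK0, hK0F, ⟨x0, hx0, hh0⟩, ⟨y0, hy0, hl0⟩, _⟩ := hK 0
  obtain ⟨hK1, hK1F, ⟨x1, hx1, hh1⟩, ⟨y1, hy1, hl1⟩, _⟩ := hK 1
  have hd : List.Disjoint (K 0) (K 1) := hKd 0 1 (by decide)
  have hex : ∀ x ∈ ({a, a'} : Set V), IsEnd P x := by
    intro x hx
    simp only [Set.mem_insert_iff, Set.mem_singleton_iff] at hx
    rcases hx with h | h <;> rw [h] <;> assumption
  have hey : ∀ x ∈ ({b, b'} : Set V), IsEnd Q x := by
    intro x hx
    simp only [Set.mem_insert_iff, Set.mem_singleton_iff] at hx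
    rcases hx with h | h <;> rw [h] <;> assumption
  have hFm : ∀ v, v ∈ ({v | Mid S R i j v} ∪ {a, a', b, b'} : Set V) → Mid S R i j v ∨ IsEnd P v ∨ IsEnd Q v := by
    intro v hv
    rcases hv with hv | hv
    · exact Or.inl hv
    · right
      simp only [Set.mem_insert_iff, Set.mem_singleton_iff] at hv
      rcases hv with h | h | h | h <;> rw [h] <;> tauto
  have hx01 : x1 ≠ x0 := by
    rintro rfl
    exact hd (head_mem hh0) (head_mem hh1)
  have hy01 : y0 ≠ y1 := by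
    rintro rfl
    exact hd (last_mem hl0) (last_mem hl1)
  obtain ⟨P', hP', hPm, hPl, hPe⟩ := orient2 (hF.fam.1 P hP).1 (hex x1 hx1) (hex x0 hx0) hx01
  obtain ⟨Q', hQ', hQm, hQl, hQe⟩ := orient2 (hF.fam.1 Q hQ).1 (hey y0 hy0) (hey y1 hy1) hy01
  have hdis : ∀ v, v ∈ P → v ∈ Q → False := fun v hv hv' => hPQ (hF.fam.eq hP hQ hv hv')
  -- vertices of the connections on the two paths
  have hKP : ∀ v, v ∈ ({v | Mid S R i j v} ∪ {a, a', b, b'} : Set V) → v ∈ P → v = x1 ∨ v = x0 := by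
    intro v hv hvP
    rcases hFm v hv with h | h | h
    · exact absurd h (hF.out P hP v hvP)
    · exact hPe v h
    · exact (hdis v hvP (end_mem h)).elim
  have hKQ : ∀ v, v ∈ ({v | Mid S R i j v} ∪ {a, a', b, b'} : Set V) → v ∈ Q → v = y0 ∨ v = y1 := by
    intro v hv hvQ
    rcases hFm v hv with h | h | h
    · exact absurd h (hF.out Q hQ v hvQ)
    · exact (hdis v (end_mem h) hvQ).elim
    · exact hQe v h
  have hg1 : IsPB G (P' ++ (K 0).tail) x1 y0 := by
    refine glue hP' ⟨hK0, hh0, hl0⟩ (fun v hv hv' => ?_)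
    rcases hKP v (hK0F v hv') ((hPm v).1 hv) with h | h
    · exact (hd hv' (h ▸ head_mem hh1)).elim
    · exact h
  have hg2 : IsPB G ((P' ++ (K 0).tail) ++ Q'.tail) x1 y1 := by
    refine glue hg1 hQ' (fun v hv hv' => ?_)
    rcases mem_glue hv with hv | hv
    · exact (hdis v ((hPm v).1 hv) ((hQm v).1 hv')).elim
    · rcases hKQ v (hK0F v hv) ((hQm v).1 hv') with h | h
      · exact h
      · exact (hd hv (h ▸ last_mem hl1)).elim
  have hxP : ∀ x, IsEnd P x → ∀ y, IsEnd Q y → x ≠ y := by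
    rintro x hx y hy rfl
    exact hdis x (end_mem hx) (end_mem hy)
  obtain ⟨cy, hcy, hcm⟩ := close_up hg2 (hxP x1 (hex x1 hx1) y1 (hey y1 hy1)) (rev ⟨hK1, hh1, hl1⟩) (by
    intro v hv hv1 hv2 hvN
    have hvK := List.mem_reverse.1 hv
    rcases mem_glue hvN with h | h
    · rcases mem_glue h with h | h
      · rcases hKP v (hK1F v hvK) ((hPm v).1 h) with h | h
        · exact hv1 h
        · exact hd (head_mem hh0) (h ▸ hvK)
      · exact hd h hvK
    · rcases hKQ v (hK1F v hvK) ((hQm v).1 h) with h | h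
      · exact hd (last_mem hl0) (h ▸ hvK)
      · exact hv2 h) (by
    left
    have h1 := (hF.fam.1 P hP).2
    have h2 := two_le hh0 hl0 (hxP x0 (hex x0 hx0) y0 (hey y0 hy0))
    rw [List.length_append, List.length_append, List.length_tail, hPl]
    omega)
  have hPc : ∀ v ∈ P, v ∈ cy := fun v hv =>
    (hcm v).2 (Or.inl (List.mem_append_left _ (List.mem_append_left _ ((hPm v).2 hv))))
  have hQc : ∀ v ∈ Q, v ∈ cy := fun v hv => by
    refine (hcm v).2 (Or.inl ?_)
    by_cases h : v = y0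
    · exact List.mem_append_left _ (h ▸ last_mem hg1.2.2)
    · exact List.mem_append_right _ (LP.Reroute.not_mem_tail hQ'.2.1 ((hQm v).2 hv) h)
  have hFc : ∀ v, v ∈ ({v | Mid S R i j v} ∪ {a, a', b, b'} : Set V) → Mid S R 0 M v ∨ ∃ P ∈ F, v ∈ P := by
    intro v hv
    rcases hFm v hv with h | h | h
    · exact Or.inl (h.mono (by omega) hj)
    · exact Or.inr ⟨P, hP, end_mem h⟩
    · exact Or.inr ⟨Q, hQ, end_mem h⟩
  refine ⟨cy, hcy, fun N hN v hv => ?_, fun v hv => ?_⟩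
  · rcases hall N hN with h | h
    · exact hPc v (h ▸ hv)
    · exact hQc v (h ▸ hv)
  · rcases (hcm v).1 hv with h | h
    · rcases mem_glue h with h | h
      · rcases mem_glue h with h | h
        · exact Or.inr ⟨P, hP, (hPm v).1 h⟩
        · exact hFc v (hK0F v h)
      · exact Or.inr ⟨Q, hQ, (hQm v).1 h⟩
    · exact hFc v (hK1F v (List.mem_reverse.1 h))

/-- The joining lemma. -/
theorem join : JoinStatement.{u} := by
  intro V _ G c M S R W T hL hM F hne hF hPD
  have hfam : Fam G F := ⟨fun P hP => ⟨(hF P hP).1, (hF P hP).2.1⟩, hPD⟩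
  have hSt : St G S R 0 M F := ⟨hfam, hne, fun P hP => (hF P hP).2.2.1, fun P hP => (hF P hP).2.2.2⟩
  have hcard : F.card ≤ 2 * c := by
    have h1 : ∀ P : F, ∃ v, IsEnd P.1 v := by
      intro P
      obtain ⟨a, b, hab⟩ := exists_pb (hfam.1 P.1 P.2).1
      exact ⟨a, (isEnd_iff hab).2 (Or.inl rfl)⟩
    choose f hf using h1
    have hinj : Function.Injective f := by
      intro P Q h
      exact Subtype.ext (hfam.eq P.2 Q.2 (end_mem (hf P)) (h ▸ end_mem (hf Q)))
    have h2 : (Finset.univ.image f) ⊆ S 0 ∪ S M := by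
      intro v hv
      obtain ⟨P, _, rfl⟩ := Finset.mem_image.1 hv
      rw [Finset.mem_union]
      exact (hF P.1 P.2).2.2.2 _ (hf P)
    have h3 := Finset.card_le_card h2
    rw [Finset.card_image_of_injective _ hinj, Finset.card_univ, Fintype.card_coe] at h3
    have h4 := Finset.card_union_le (S 0) (S M)
    rw [hL.card 0 (by omega), hL.card M le_rfl] at h4
    omega
  by_cases hall : ∀ P ∈ F, ∀ v, IsEnd P v → v ∈ S 0
  · obtain ⟨i, F', h0, h1, h2, h3, h4⟩ := hL.loop le_rfl F.card 0 F rfl hSt (by omega)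
    have hleft : ∀ P ∈ F', ∀ v, IsEnd P v → v ∈ S i := by
      intro P hP v hv
      rcases h2.ends P hP v hv with h | h
      · exact h
      · exfalso
        obtain ⟨Q, hQ, hQv⟩ := h4.right P hP v hv h
        exact hL.nSS (by omega) le_rfl (by omega) (hall Q hQ v hQv) h
    have hc1 : F'.card = 1 := by
      refine le_antisymm (Finset.card_le_one.2 (fun P hP Q hQ => ?_)) (Finset.card_pos.2 h2.ne)
      obtain ⟨a, b, hab⟩ := exists_pb (h2.fam.1 P hP).1
      obtain ⟨a', b', hab'⟩ := exists_pb (h2.fam.1 Q hQ).1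
      have hea : IsEnd P a := (isEnd_iff hab).2 (Or.inl rfl)
      have hea' : IsEnd Q a' := (isEnd_iff hab').2 (Or.inl rfl)
      exact h3 P hP Q hQ a a' hea hea' (hleft P hP a hea) (hleft Q hQ a' hea')
    obtain ⟨cy, h5, h6, h7, h8⟩ := hL.finish1 le_rfl (M - i - 1) i F' (by omega) h2 hc1
    refine ⟨cy, h5, ?_, ?_, fun _ => h8 hleft⟩
    · intro P hP v hv
      obtain ⟨Q, hQ, h⟩ := h4.coarse P hP
      exact h6 Q hQ v (h v hv)
    · intro v hv
      rcases h7 v hv with h | ⟨Q, hQ, h⟩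
      · exact Or.inl h
      · exact h4.sub Q hQ v h
  · obtain ⟨i, j, F', h0, h1, h2, h3, h4, h5, h6, h7⟩ := hL.both hSt (by omega)
    have hpos := Finset.card_pos.2 h3.ne
    have hfin : ∃ cy, Cyc G cy ∧ (∀ P ∈ F', ∀ v ∈ P, v ∈ cy) ∧ ∀ v ∈ cy, Mid S R 0 M v ∨ ∃ P ∈ F', v ∈ P := by
      by_cases hc1 : F'.card = 1
      · obtain ⟨cy, h8, h9, h10, _⟩ := hL.finish1 h1 (j - i - 1) i F' (by omega) h3 hc1
        exact ⟨cy, h8, h9, h10⟩
      · obtain ⟨P, hP, Q, hQ, hPQ⟩ := Finset.one_lt_card.1 (show 1 < F'.card by omega)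
        have hij : i ≠ j := by omega
        -- if `P` has an end on the left then all its ends are on the left, those of `Q` on the right
        have key : ∀ P ∈ F', ∀ Q ∈ F', P ≠ Q → (∃ v, IsEnd P v ∧ v ∈ S i) →
            (∀ v, IsEnd P v → v ∈ S i) ∧ ∀ v, IsEnd Q v → v ∈ S j := by
          rintro P hP Q hQ hPQ ⟨v, hv, hvS⟩
          have hQj : ∀ w, IsEnd Q w → w ∈ S j := by
            intro w hw
            rcases h3.ends Q hQ w hw with h | h
            · exact absurd (h4 P hP Q hQ v w hv hw hvS h) hPQ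
            · exact h
          refine ⟨fun w hw => ?_, hQj⟩
          rcases h3.ends P hP w hw with h | h
          · exact h
          · obtain ⟨a, b, hab⟩ := exists_pb (h3.fam.1 Q hQ).1
            have hea : IsEnd Q a := (isEnd_iff hab).2 (Or.inl rfl)
            exact absurd (h5 P hP Q hQ w a hw hea h (hQj a hea)) hPQ
        have key2 : ∃ P ∈ F', ∃ Q ∈ F', P ≠ Q ∧ (∀ v, IsEnd P v → v ∈ S i) ∧ ∀ v, IsEnd Q v → v ∈ S j := by
          by_cases h : ∃ v, IsEnd P v ∧ v ∈ S i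
          · exact ⟨P, hP, Q, hQ, hPQ, key P hP Q hQ hPQ h⟩
          · push Not at h
            obtain ⟨a, b, hab⟩ := exists_pb (h3.fam.1 P hP).1
            have hea : IsEnd P a := (isEnd_iff hab).2 (Or.inl rfl)
            have haj : a ∈ S j := (h3.ends P hP a hea).resolve_left (h a hea)
            obtain ⟨a', b', hab'⟩ := exists_pb (h3.fam.1 Q hQ).1
            have hea' : IsEnd Q a' := (isEnd_iff hab').2 (Or.inl rfl)
            have hai : a' ∈ S i := by
              rcases h3.ends Q hQ a' hea' with h | h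
              · exact h
              · exact absurd (h5 P hP Q hQ a a' hea hea' haj h) hPQ
            exact ⟨Q, hQ, P, hP, hPQ.symm, key Q hQ P hP hPQ.symm ⟨a', hea', hai⟩⟩
        obtain ⟨P, hP, Q, hQ, hPQ, hPi, hQj⟩ := key2
        refine hL.finish2 (by omega) h1 h3 hP hQ hPQ hPi hQj (fun N hN => ?_)
        obtain ⟨a, b, hab⟩ := exists_pb (h3.fam.1 N hN).1
        have hea : IsEnd N a := (isEnd_iff hab).2 (Or.inl rfl)
        rcases h3.ends N hN a hea with h | h
        · obtain ⟨a', b', hab'⟩ := exists_pb (h3.fam.1 P hP).1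
          have hea' : IsEnd P a' := (isEnd_iff hab').2 (Or.inl rfl)
          exact Or.inl (h4 N hN P hP a a' hea hea' h (hPi a' hea'))
        · obtain ⟨a', b', hab'⟩ := exists_pb (h3.fam.1 Q hQ).1
          have hea' : IsEnd Q a' := (isEnd_iff hab').2 (Or.inl rfl)
          exact Or.inr (h5 N hN Q hQ a a' hea hea' h (hQj a' hea'))
    obtain ⟨cy, h8, h9, h10⟩ := hfin
    refine ⟨cy, h8, ?_, ?_, fun h => absurd h hall⟩
    · intro P hP v hv
      obtain ⟨Q, hQ, h⟩ := h6 P hP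
      exact h9 Q hQ v (h v hv)
    · intro v hv
      rcases h10 v hv with h | ⟨Q, hQ, h⟩
      · exact Or.inl h
      · exact h7 Q hQ v h

end Pool.Agent.Lib.MP_688fd0_co.ASY.H85
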