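import Pool.Agent.Lib.MP_688fd0_co.ASY.H85.JoinRev

/-!
Closing up (helper85): the end of the proof of the joining lemma.
-/

set_option autoImplicit false

namespace Pool.Agent.Lib.MP_688fd0_co.ASY.H85

open Classical
open Pool.Agent.Lib.MP_688fd0_co.LP (IsP IsPB Conn Cyc Linkage)
open Pool.Agent.Lib.MP_688fd0_co.LP.Reroute (glue rev mem_glue head_mem last_mem two_le)
open Pool.Agent.Lib.MP_688fd0_co.LIN

universe u

variable {V : Type u} {G : SimpleGraph V} {c M : ℕ} {S R W : ℕ → Finset V} {T : ℕ → V → List V}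

/-- closing a path through a set in which neighbours of its ends are connected -/
theorem close_conn {P : List V} {a b u w : V} {Z : Set V} (h : IsPB G P a b) (hne : a ≠ b)
    (hP : ∀ v ∈ P, v ∉ Z) (hu : G.Adj a u) (hw : G.Adj b w) (hc : Conn G Z u w) :
    ∃ cy, Cyc G cy ∧ (∀ v ∈ P, v ∈ cy) ∧ ∀ v ∈ cy, v ∈ P ∨ v ∈ Z := by
  obtain ⟨J, hJ, hJZ⟩ := LP.Conn.exists_path hc.symm
  have hbJ : b ∉ J := fun hb => hP b (last_mem h.2.2) (hJZ b hb)
  have hJ' : IsPB G (b :: J) b u := by
    obtain ⟨⟨h1, h2, h3⟩, h4, h5⟩ := hJ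
    refine ⟨⟨by simp, ?_, List.nodup_cons.2 ⟨hbJ, h3⟩⟩, rfl, ?_⟩
    · rw [List.isChain_cons]
      refine ⟨fun y hy => ?_, h2⟩
      rw [h4] at hy
      have : w = y := by simpa using hy
      exact this ▸ hw
    · obtain ⟨x, l, rfl⟩ := List.exists_cons_of_ne_nil h1
      simpa using h5
  have hg : IsPB G (P ++ J) a u := by
    have := glue h hJ' (fun x hx hx' => by
      rcases List.mem_cons.1 hx' with h | h
      · exact h
      · exact absurd (hJZ x h) (hP x hx))
    simpa using this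
  have hlen := two_le h.2.1 h.2.2 hne
  have hJl := List.length_pos_iff.2 hJ.1.1
  refine ⟨P ++ J, ⟨hg.1, ?_, a, u, hg.2.1, hg.2.2, hu.symm⟩, fun v hv => List.mem_append_left _ hv, fun v hv => ?_⟩
  · rw [List.length_append]
    omega
  · exact (List.mem_append.1 hv).imp id (hJZ v)

section ladder

variable (hL : Ladder G c M S R W T)
include hL

/-- the inner part of a track -/
theorem Ladder.inner {m : ℕ} (hm : m < M) {e : V} (he : e ∈ S m) : ∃ I f u u', f ∈ S (m + 1) ∧
    (T m e).getLast? = some f ∧ IsPB G I u u' ∧ G.Adj e u ∧ G.Adj u' f ∧ (∀ v ∈ I, v ∈ R m ∧ v ∈ T m e) ∧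
    ∀ v ∈ T m e, v ∈ R m → v ∈ I := by
  obtain ⟨f, hf, hef, hmem⟩ := hL.tr hm he
  obtain ⟨x, hx, _, _, hxx⟩ := hL.conn m hm e he e he
  have hxR : x ∈ R m := hL.WR m hm (by simpa using hxx.left)
  have hne : f ≠ e := fun h => hL.nSS (show m + 1 ≤ M from hm) (by omega) (by omega) hf (h ▸ he)
  obtain ⟨u', J', hJ', hp, hadj⟩ := drop_last hef hne
  have hxJ : x ∈ J' := by
    rw [hJ', List.mem_append, List.mem_singleton] at hx
    rcases hx with h | h
    · exact h
    · exact absurd hxR (hL.nSR (show m + 1 ≤ M from hm) hm (h ▸ hf))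
  have hxe : x ≠ e := fun h => hL.nSR (by omega) hm he (h ▸ hxR)
  have hue : e ≠ u' := by
    refine pb_ne hp ?_
    by_contra hlen
    have hl : J'.length = 1 := by
      have := List.length_pos_iff.2 hp.1.1
      omega
    obtain ⟨z, hz⟩ := List.length_eq_one_iff.1 hl
    have h1 : z = e := by
      have := hp.2.1
      rw [hz] at this
      simpa using this
    rw [hz, List.mem_singleton] at hxJ
    exact hxe (hxJ.trans h1)
  obtain ⟨u, J'', hJ'', hp', hadj'⟩ := drop_last (rev hp) hue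
  have hJJ : J' = e :: J''.reverse := by
    have := congrArg List.reverse hJ''
    simpa using this
  have heJ : e ∉ J''.reverse := by
    have := hp.1.2.2
    rw [hJJ, List.nodup_cons] at this
    exact this.1
  have hfJ : f ∉ J' := by
    have := hef.1.2.2
    rw [hJ', List.nodup_append] at this
    intro h
    exact this.2.2 f h f (by simp) rfl
  refine ⟨J''.reverse, f, u, u', hf, hef.2.2, rev hp', hadj'.symm, hadj, fun v hv => ?_, fun v hv hvR => ?_⟩
  · have hvJ : v ∈ J' := by
      rw [hJJ]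
      exact List.mem_cons_of_mem _ hv
    have hvT : v ∈ T m e := by
      rw [hJ']
      exact List.mem_append_left _ hvJ
    refine ⟨?_, hvT⟩
    rcases hmem v hvT with h | h | h
    · exact absurd (h ▸ hv) heJ
    · exact absurd (h ▸ hvJ) hfJ
    · exact h
  · rw [hJ', List.mem_append, List.mem_singleton] at hv
    rcases hv with h | h
    · rw [hJJ] at h
      rcases List.mem_cons.1 h with h | h
      · exact absurd hvR (hL.nSR (by omega) hm (h ▸ he))
      · exact h
    · exact absurd hvR (hL.nSR (show m + 1 ≤ M from hm) hm (h ▸ hf))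

theorem Ladder.lv1 {m : ℕ} (hm : m < M) {e : V} (he : e ∈ S m ∨ e ∈ S (m + 1)) :
    ∃ u, G.Adj e u ∧ u ∈ R m ∧ ∃ e0 ∈ S m, u ∈ T m e0 := by
  rcases he with he | he
  · obtain ⟨I, f, u, u', _, _, hI, h1, _, h2, _⟩ := hL.inner hm he
    exact ⟨u, h1, (h2 u (head_mem hI.2.1)).1, e, he, (h2 u (head_mem hI.2.1)).2⟩
  · obtain ⟨e0, he0, hl⟩ := hL.surj hm he
    obtain ⟨I, f, u, u', _, hf, hI, _, h1, h2, _⟩ := hL.inner hm he0
    have : f = e := by
      have := hf.symm.trans hl
      simpa using this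
    subst this
    exact ⟨u', h1.symm, (h2 u' (last_mem hI.2.2)).1, e0, he0, (h2 u' (last_mem hI.2.2)).2⟩

theorem Ladder.lv2 {m : ℕ} (hm : m < M) {u u' e e' : V} (he : e ∈ S m) (he' : e' ∈ S m) (hu : u ∈ R m)
    (hu' : u' ∈ R m) (hT : u ∈ T m e) (hT' : u' ∈ T m e') : Conn G (↑(R m) : Set V) u u' := by
  have key : ∀ a ∈ S m, ∀ x y, x ∈ T m a → y ∈ T m a → x ∈ R m → y ∈ R m → Conn G (↑(R m) : Set V) x y := by
    intro a ha x y hx hy hxR hyR
    obtain ⟨I, f, z, z', _, _, hI, _, _, h2, h3⟩ := hL.inner hm ha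
    have hIR : ∀ v ∈ I, v ∈ (↑(R m) : Set V) := fun v hv => by simpa using (h2 v hv).1
    exact (hI.conn_mem hIR (h3 x hx hxR)).symm.trans (hI.conn_mem hIR (h3 y hy hyR))
  obtain ⟨x, hx, x', hx', hxx⟩ := hL.conn m hm e he e' he'
  have hxR : x ∈ R m := hL.WR m hm (by simpa using hxx.left)
  have hxR' : x' ∈ R m := hL.WR m hm (by simpa using hxx.right)
  have hWR : (↑(W m) : Set V) ⊆ ↑(R m) := fun v hv => by
    have := hL.WR m hm (by simpa using hv)
    simpa using this
  exact ((key e he u x hT hx hu hxR).trans (hxx.mono hWR)).trans (key e' he' x' u' hx' hT' hxR' hu')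

/-- closing when there is only one path -/
theorem Ladder.finish1 {j : ℕ} (hj : j ≤ M) : ∀ (n i : ℕ) (F : Finset (List V)), i + n + 1 = j → St G S R i j F →
    F.card = 1 → ∃ cy, Cyc G cy ∧ (∀ P ∈ F, ∀ v ∈ P, v ∈ cy) ∧ (∀ v ∈ cy, Mid S R 0 M v ∨ ∃ P ∈ F, v ∈ P) ∧
      ((∀ P ∈ F, ∀ v, IsEnd P v → v ∈ S i) → ∃ v ∈ cy, v ∈ S (j - 1)) := by
  intro n
  induction n with
  | zero =>
    intro i F hij hF hcard
    obtain ⟨P, hP⟩ := Finset.card_eq_one.1 hcard
    subst hP
    obtain ⟨a, b, hab⟩ := exists_pb (hF.fam.1 P (Finset.mem_singleton_self P)).1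
    have hne := pb_ne hab (hF.fam.1 P (Finset.mem_singleton_self P)).2
    have hj1 : j = i + 1 := by omega
    subst hj1
    have hi : i < M := by omega
    have hea : IsEnd P a := (isEnd_iff hab).2 (Or.inl rfl)
    have heb : IsEnd P b := (isEnd_iff hab).2 (Or.inr rfl)
    obtain ⟨u, h1, h2, e0, he0, h3⟩ := hL.lv1 hi (hF.ends P (Finset.mem_singleton_self P) a hea)
    obtain ⟨w, h4, h5, f0, hf0, h6⟩ := hL.lv1 hi (hF.ends P (Finset.mem_singleton_self P) b heb)
    obtain ⟨cy, h7, h8, h9⟩ := close_conn hab hne (Z := ↑(R i)) (fun v hv hvR => by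
      refine hF.out P (Finset.mem_singleton_self P) v hv (Or.inl ⟨i, le_rfl, by omega, ?_⟩)
      simpa using hvR) h1 h4 (hL.lv2 hi he0 hf0 h2 h5 h3 h6)
    refine ⟨cy, h7, ?_, ?_, ?_⟩
    · intro Q hQ v hv
      rw [Finset.mem_singleton] at hQ
      exact h8 v (hQ ▸ hv)
    · intro v hv
      rcases h9 v hv with h | h
      · exact Or.inr ⟨P, Finset.mem_singleton_self P, h⟩
      · exact Or.inl (Or.inl ⟨i, by omega, hi, by simpa using h⟩)
    · intro hS
      refine ⟨a, h8 a (head_mem hab.2.1), ?_⟩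
      have : i + 1 - 1 = i := by omega
      rw [this]
      exact hS P (Finset.mem_singleton_self P) a hea
  | succ n ih =>
    intro i F hij hF hcard
    obtain ⟨F', h1, h2, h3⟩ := hL.pass (by omega) hj hF
    obtain ⟨cy, h4, h5, h6, h7⟩ := ih (i + 1) F' (by omega) h1 (by omega)
    refine ⟨cy, h4, ?_, ?_, ?_⟩
    · intro P hP v hv
      obtain ⟨Q, hQ, h⟩ := h3.coarse P hP
      exact h5 Q hQ v (h v hv)
    · intro v hv
      rcases h6 v hv with h | ⟨Q, hQ, h⟩
      · exact Or.inl h
      · exact h3.sub Q hQ v h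
    · intro hS
      refine h7 (fun Q hQ v hv => ?_)
      rcases h1.ends Q hQ v hv with h | h
      · exact h
      · exfalso
        obtain ⟨P, hP, hPv⟩ := h3.right Q hQ v hv h
        exact hL.nSS (by omega) hj (by omega) (hS P hP v hPv) h

/-- two disjoint routes from level `i` to level `m` -/
theorem Ladder.routes {i : ℕ} {a a' : V} (ha : a ∈ S i) (ha' : a' ∈ S i) (hne : a ≠ a') : ∀ n : ℕ, i + n + 1 ≤ M →
    ∃ e e' L L', e ∈ S (i + n + 1) ∧ e' ∈ S (i + n + 1) ∧ IsPB G L a e ∧ IsPB G L' a' e' ∧ List.Disjoint L L' ∧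
      (∀ v ∈ L, v = a ∨ v = e ∨ Mid S R i (i + n + 1) v) ∧ ∀ v ∈ L', v = a' ∨ v = e' ∨ Mid S R i (i + n + 1) v := by
  intro n
  induction n with
  | zero =>
    intro hi
    have hi' : i < M := by omega
    obtain ⟨e, he, hL1, hm⟩ := hL.tr hi' ha
    obtain ⟨e', he', hL1', hm'⟩ := hL.tr hi' ha'
    refine ⟨e, e', T i a, T i a', he, he', hL1, hL1', hL.disj i hi' a ha a' ha' hne, fun v hv => ?_, fun v hv => ?_⟩
    · rcases hm v hv with h | h | h
      · exact Or.inl h
      · exact Or.inr (Or.inl h)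
      · exact Or.inr (Or.inr (Or.inl ⟨i, le_rfl, by omega, h⟩))
    · rcases hm' v hv with h | h | h
      · exact Or.inl h
      · exact Or.inr (Or.inl h)
      · exact Or.inr (Or.inr (Or.inl ⟨i, le_rfl, by omega, h⟩))
  | succ n ih =>
    intro hi
    obtain ⟨e, e', L, L', he, he', hp, hp', hd, hm, hm'⟩ := ih (by omega)
    have hmM : i + n + 1 < M := by omega
    obtain ⟨f, hf, ht, htm⟩ := hL.tr hmM he
    obtain ⟨f', hf', ht', htm'⟩ := hL.tr hmM he'
    -- a vertex of a route on a track of the next level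
    have key : ∀ v, ∀ a0 ∈ S i, ∀ e0 ∈ S (i + n + 1), ∀ e1 ∈ S (i + n + 1),
        (v = a0 ∨ v = e0 ∨ Mid S R i (i + n + 1) v) → v ∈ T (i + n + 1) e1 → v = e0 ∧ v = e1 := by
      intro v a0 ha0 e0 he0 e1 he1 hv hvT
      obtain ⟨f1, hf1, _, hm1⟩ := hL.tr hmM he1
      have h1 : v ∈ S (i + n + 1) ∨ v ∈ S (i + n + 2) ∨ v ∈ R (i + n + 1) := by
        rcases hm1 v hvT with h | h | h
        · exact Or.inl (h ▸ he1)
        · exact Or.inr (Or.inl (h ▸ hf1))
        · exact Or.inr (Or.inr h)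
      have h2 : v = e0 := by
        rcases hv with h | h | h
        · exfalso
          subst h
          rcases h1 with h | h | h
          · exact hL.nSS (by omega) (by omega) (by omega) ha0 h
          · exact hL.nSS (by omega) (by omega) (by omega) ha0 h
          · exact hL.nSR (by omega) (by omega) ha0 h
        · exact h
        · exfalso
          rcases h with ⟨k, hk1, hk2, hk⟩ | ⟨k, hk1, hk2, hk⟩
          · rcases h1 with h | h | h
            · exact hL.nSR (by omega) (by omega) h hk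
            · exact hL.nSR (by omega) (by omega) h hk
            · exact hL.nRR (by omega) (by omega) (by omega) h hk
          · rcases h1 with h | h | h
            · exact hL.nSS (by omega) (by omega) (by omega) h hk
            · exact hL.nSS (by omega) (by omega) (by omega) h hk
            · exact hL.nSR (by omega) (by omega) hk h
      refine ⟨h2, ?_⟩
      subst h2
      rcases hm1 v hvT with h | h | h
      · exact h
      · exact absurd he0 (hL.nSS (by omega) (by omega) (by omega) (h ▸ hf1))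
      · exact absurd h (hL.nSR (by omega) (by omega) he0)
    have hee : e ≠ e' := by
      rintro rfl
      exact hd (last_mem hp.2.2) (last_mem hp'.2.2)
    have hmem : ∀ (a0 e0 f0 : V) (L0 : List V), e0 ∈ S (i + n + 1) →
        (∀ v ∈ L0, v = a0 ∨ v = e0 ∨ Mid S R i (i + n + 1) v) →
        (∀ v ∈ T (i + n + 1) e0, v = e0 ∨ v = f0 ∨ v ∈ R (i + n + 1)) →
        ∀ v ∈ L0 ++ (T (i + n + 1) e0).tail, v = a0 ∨ v = f0 ∨ Mid S R i (i + (n + 1) + 1) v := by
      intro a0 e0 f0 L0 he0 h1 h2 v hv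
      have he0' : Mid S R i (i + (n + 1) + 1) e0 := Or.inr ⟨i + n + 1, by omega, by omega, he0⟩
      rcases mem_glue hv with h | h
      · rcases h1 v h with h | h | h
        · exact Or.inl h
        · exact Or.inr (Or.inr (h ▸ he0'))
        · exact Or.inr (Or.inr (h.mono le_rfl (by omega)))
      · rcases h2 v h with h | h | h
        · exact Or.inr (Or.inr (h ▸ he0'))
        · exact Or.inr (Or.inl h)
        · exact Or.inr (Or.inr (Or.inl ⟨i + n + 1, by omega, by omega, h⟩))
    refine ⟨f, f', L ++ (T (i + n + 1) e).tail, L' ++ (T (i + n + 1) e').tail, hf, hf',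
      glue hp ht (fun x hx hx' => (key x a ha e he e he (hm x hx) hx').1),
      glue hp' ht' (fun x hx hx' => (key x a' ha' e' he' e' he' (hm' x hx) hx').1), ?_,
      hmem a e f L he hm htm, hmem a' e' f' L' he' hm' htm'⟩
    intro v hv hv'
    rcases mem_glue hv with h | h <;> rcases mem_glue hv' with h' | h'
    · exact hd h h'
    · obtain ⟨h1, h2⟩ := key v a ha e he e' he' (hm v h) h'
      exact hee (h1.symm.trans h2)
    · obtain ⟨h1, h2⟩ := key v a' ha' e' he' e he (hm' v h') h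
      exact hee (h2.symm.trans h1)
    · exact hL.disj _ hmM e he e' he' hee h h'

/-- through one level -/
theorem Ladder.level {m : ℕ} (hm : m < M) {e f : V} (he : e ∈ S m) (hf : f ∈ S (m + 1)) :
    Conn G (({e, f} : Set V) ∪ ↑(R m)) e f := by
  obtain ⟨u, h1, h2, e0, he0, h3⟩ := hL.lv1 hm (Or.inl he)
  obtain ⟨w, h4, h5, f0, hf0, h6⟩ := hL.lv1 hm (Or.inr hf)
  have h7 := hL.lv2 hm he0 hf0 h2 h5 h3 h6
  have h8 : Conn G (({e, f} : Set V) ∪ ↑(R m)) u w := h7.mono Set.subset_union_right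
  have h9 : Conn G (({e, f} : Set V) ∪ ↑(R m)) e u := Conn.single (by simp) h1 h8.left
  exact (h9.trans h8).trans (Conn.single h8.right h4.symm (by simp))

end ladder

/-- Two disjoint connections between two vertices of `S i` and two vertices of `S j`. -/
theorem Ladder.two (hL : Ladder G c M S R W T) [Finite V] {i j : ℕ} (hij : i + 4 ≤ j) (hj : j ≤ M) {a a' b b' : V}
    (ha : a ∈ S i) (ha' : a' ∈ S i) (hne : a ≠ a') (hb : b ∈ S j) (hb' : b' ∈ S j) (hne' : b ≠ b') :
    ∃ Q : Fin 2 → List V, Linkage G ({v | Mid S R i j v} ∪ {a, a', b, b'}) {a, a'} {b, b'} 2 Q := by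
  refine LP.menger G _ _ _ 2 (fun X hX => ?_)
  -- it is enough to delete one vertex
  have hz : ∃ z : V, ∀ x ∈ X, x = z := by
    rcases Finset.eq_empty_or_nonempty X with h | ⟨z, hz⟩
    · exact ⟨a, by simp [h]⟩
    · exact ⟨z, fun x hx => Finset.card_le_one.1 (by omega) x hx z hz⟩
  obtain ⟨z, hz⟩ := hz
  have hm : ∃ m, i + 1 ≤ m ∧ m + 2 ≤ j ∧ z ∉ R m := by
    by_cases h : z ∈ R (i + 1)
    · exact ⟨i + 2, by omega, by omega, hL.nRR (by omega) (by omega) (by omega) h⟩
    · exact ⟨i + 1, by omega, by omega, h⟩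
  obtain ⟨m, hm1, hm2, hzR⟩ := hm
  -- from the left
  have hleft : ∃ a0, (a0 = a ∨ a0 = a') ∧ ∃ e ∈ S m, e ≠ z ∧
      Conn G (({v | Mid S R i j v} ∪ {a, a', b, b'}) \ ↑X) a0 e := by
    obtain ⟨e, e', L, L', he, he', hp, hp', hd, hmm, hmm'⟩ := hL.routes ha ha' hne (m - i - 1) (by omega)
    have e1 : i + (m - i - 1) + 1 = m := by omega
    rw [e1] at he he' hmm hmm'
    have hmid : ∀ v, Mid S R i m v → Mid S R i j v := fun v h => h.mono le_rfl (by omega)
    have heM : ∀ v ∈ S m, Mid S R i j v := fun v hv => Or.inr ⟨m, by omega, by omega, hv⟩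
    by_cases hzL : z ∈ L
    · refine ⟨a', Or.inr rfl, e', he', fun h => hd hzL (h ▸ last_mem hp'.2.2), hp'.conn (fun v hv => ⟨?_, ?_⟩)⟩
      · rcases hmm' v hv with h | h | h
        · right; simp [h]
        · exact Or.inl (heM v (h ▸ he'))
        · exact Or.inl (hmid v h)
      · intro hvX
        exact hd hzL (hz v (by simpa using hvX) ▸ hv)
    · refine ⟨a, Or.inl rfl, e, he, fun h => hzL (h ▸ last_mem hp.2.2), hp.conn (fun v hv => ⟨?_, ?_⟩)⟩
      · rcases hmm v hv with h | h | h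
        · right; simp [h]
        · exact Or.inl (heM v (h ▸ he))
        · exact Or.inl (hmid v h)
      · intro hvX
        exact hzL (hz v (by simpa using hvX) ▸ hv)
  -- from the right
  have hright : ∃ b0, (b0 = b ∨ b0 = b') ∧ ∃ f ∈ S (m + 1), f ≠ z ∧
      Conn G (({v | Mid S R i j v} ∪ {a, a', b, b'}) \ ↑X) b0 f := by
    obtain ⟨T', hL'⟩ := hL.reversed
    have e2 : M - (M - j) = j := by omega
    obtain ⟨f, f', L, L', hf, hf', hp, hp', hd, hmm, hmm'⟩ := hL'.routes (i := M - j) (a := b) (a' := b')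
      (by show b ∈ S (M - (M - j)); rw [e2]; exact hb) (by show b' ∈ S (M - (M - j)); rw [e2]; exact hb') hne'
      (j - m - 2) (by omega)
    have e1 : M - j + (j - m - 2) + 1 = M - (m + 1) := by omega
    have e3 : M - (M - (m + 1)) = m + 1 := by omega
    rw [e1] at hf hf' hmm hmm'
    have hf : f ∈ S (m + 1) := by
      have : f ∈ S (M - (M - (m + 1))) := hf
      rwa [e3] at this
    have hf' : f' ∈ S (m + 1) := by
      have : f' ∈ S (M - (M - (m + 1))) := hf'
      rwa [e3] at this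
    have hmid : ∀ v, Mid (fun k => S (M - k)) (fun k => R (M - 1 - k)) (M - j) (M - (m + 1)) v → Mid S R i j v := by
      intro v h
      rw [mid_rev (by omega) (by omega), e2, e3] at h
      exact h.mono (by omega) le_rfl
    have heM : ∀ v ∈ S (m + 1), Mid S R i j v := fun v hv => Or.inr ⟨m + 1, by omega, by omega, hv⟩
    by_cases hzL : z ∈ L
    · refine ⟨b', Or.inr rfl, f', hf', fun h => hd hzL (h ▸ last_mem hp'.2.2), hp'.conn (fun v hv => ⟨?_, ?_⟩)⟩
      · rcases hmm' v hv with h | h | h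
        · right; simp [h]
        · exact Or.inl (heM v (h ▸ hf'))
        · exact Or.inl (hmid v h)
      · intro hvX
        exact hd hzL (hz v (by simpa using hvX) ▸ hv)
    · refine ⟨b, Or.inl rfl, f, hf, fun h => hzL (h ▸ last_mem hp.2.2), hp.conn (fun v hv => ⟨?_, ?_⟩)⟩
      · rcases hmm v hv with h | h | h
        · right; simp [h]
        · exact Or.inl (heM v (h ▸ hf))
        · exact Or.inl (hmid v h)
      · intro hvX
        exact hzL (hz v (by simpa using hvX) ▸ hv)
  obtain ⟨a0, ha0, e, he, hez, hc1⟩ := hleft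
  obtain ⟨b0, hb0, f, hf, hfz, hc2⟩ := hright
  have hc3 : Conn G (({v | Mid S R i j v} ∪ {a, a', b, b'}) \ ↑X) e f := by
    refine (hL.level (by omega) he hf).mono (fun v hv => ⟨?_, ?_⟩)
    · left
      rcases hv with hv | hv
      · simp only [Set.mem_insert_iff, Set.mem_singleton_iff] at hv
        rcases hv with h | h
        · exact Or.inr ⟨m, by omega, by omega, h ▸ he⟩
        · exact Or.inr ⟨m + 1, by omega, by omega, h ▸ hf⟩
      · exact Or.inl ⟨m, by omega, by omega, by simpa using hv⟩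
    · intro hvX
      have hvz := hz v (by simpa using hvX)
      rcases hv with hv | hv
      · simp only [Set.mem_insert_iff, Set.mem_singleton_iff] at hv
        rcases hv with h | h
        · exact hez (h.symm.trans hvz)
        · exact hfz (h.symm.trans hvz)
      · exact hzR (hvz ▸ (by simpa using hv))
  refine ⟨a0, ?_, b0, ?_, (hc1.trans hc3).trans hc2.symm⟩
  · simpa using ha0
  · simpa using hb0

end Pool.Agent.Lib.MP_688fd0_co.ASY.H85
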