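import Pool.Agent.Lib.MP_688fd0_co.ASY.H85.LadderDefs
import Pool.Agent.Lib.MP_688fd0_co.LP.Reroute
import Pool.Agent.Lib.MP_688fd0_co.LP.ConnBasic

/-!
Families of disjoint paths: joining two paths, extending all paths, closing up (helper85).
-/

set_option autoImplicit false

namespace Pool.Agent.Lib.MP_688fd0_co.ASY.H85

open Classical
open Pool.Agent.Lib.MP_688fd0_co.LP (IsP IsPB Conn Cyc)
open Pool.Agent.Lib.MP_688fd0_co.LP.Reroute (glue rev mem_glue head_mem last_mem two_le)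
open Pool.Agent.Lib.MP_688fd0_co.LIN

universe u

variable {V : Type u} {G : SimpleGraph V}

theorem exists_pb {P : List V} (h : IsP G P) : ∃ a b, IsPB G P a b := by
  obtain ⟨x, l, rfl⟩ := List.exists_cons_of_ne_nil h.1
  exact ⟨x, (x :: l).getLast (by simp), h, rfl, List.getLast?_eq_getLast_of_ne_nil (by simp)⟩

theorem isEnd_iff {P : List V} {a b v : V} (h : IsPB G P a b) : IsEnd P v ↔ v = a ∨ v = b := by
  unfold IsEnd
  rw [h.2.1, h.2.2, Option.some.injEq, Option.some.injEq]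
  exact ⟨fun h => h.imp Eq.symm Eq.symm, fun h => h.imp Eq.symm Eq.symm⟩

theorem end_mem {P : List V} {v : V} (h : IsEnd P v) : v ∈ P :=
  h.elim head_mem last_mem

theorem pb_ne {P : List V} {a b : V} (h : IsPB G P a b) (h2 : 2 ≤ P.length) : a ≠ b := by
  rintro rfl
  obtain ⟨⟨_, _, hn⟩, hh, hl⟩ := h
  rcases P with _ | ⟨x, P⟩
  · simp at hh
  · rcases List.eq_nil_or_concat P with h | ⟨P', z, h⟩
    · subst h; simp at h2
    · subst h
      simp only [List.head?_cons, Option.some.injEq] at hh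
      rw [List.concat_eq_append, ← List.cons_append, List.getLast?_append] at hl
      simp at hl
      rw [List.concat_eq_append, List.nodup_cons] at hn
      exact hn.1 (by rw [hh, ← hl]; simp)

/-- orientation of a path so that a given end is the last vertex -/
theorem orient {P : List V} {a : V} (h : IsP G P) (he : IsEnd P a) :
    ∃ Q b, IsPB G Q b a ∧ (∀ v, v ∈ Q ↔ v ∈ P) ∧ Q.length = P.length ∧ ∀ v, IsEnd Q v ↔ IsEnd P v := by
  obtain ⟨x, y, hP⟩ := exists_pb h
  rcases (isEnd_iff hP).1 he with h1 | h1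
  · subst h1
    refine ⟨P.reverse, y, rev hP, by simp, by simp, fun v => ?_⟩
    rw [isEnd_iff (rev hP), isEnd_iff hP, or_comm]
  · subst h1
    exact ⟨P, x, hP, fun v => Iff.rfl, rfl, fun v => Iff.rfl⟩

/-- every path of the first family is contained in a path of the second one -/
def Coarse (F F' : Finset (List V)) : Prop := ∀ P ∈ F, ∃ Q ∈ F', ∀ v ∈ P, v ∈ Q

theorem Coarse.refl (F : Finset (List V)) : Coarse F F := fun P hP => ⟨P, hP, fun _ h => h⟩

theorem Coarse.trans {F F' F'' : Finset (List V)} (h : Coarse F F') (h' : Coarse F' F'') : Coarse F F'' := by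
  intro P hP
  obtain ⟨Q, hQ, h1⟩ := h P hP
  obtain ⟨R, hR, h2⟩ := h' Q hQ
  exact ⟨R, hR, fun v hv => h2 v (h1 v hv)⟩

/-- a family of disjoint paths with at least two vertices -/
def Fam (G : SimpleGraph V) (F : Finset (List V)) : Prop := (∀ P ∈ F, IsP G P ∧ 2 ≤ P.length) ∧ PD F

theorem Fam.eq {F : Finset (List V)} (h : Fam G F) {P Q : List V} (hP : P ∈ F) (hQ : Q ∈ F) {v : V} (h1 : v ∈ P)
    (h2 : v ∈ Q) : P = Q := by
  by_contra hne
  exact h.2 P hP Q hQ hne h1 h2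

/-- Joining two paths of a family. -/
theorem join_fam {F : Finset (List V)} (hF : Fam G F) {P1 P2 : List V} (h1 : P1 ∈ F) (h2 : P2 ∈ F) (hne : P1 ≠ P2)
    {a1 a2 : V} (ha1 : IsEnd P1 a1) (ha2 : IsEnd P2 a2) {J : List V} (hJ : IsPB G J a1 a2)
    (hJF : ∀ v ∈ J, v ≠ a1 → v ≠ a2 → ∀ P ∈ F, v ∉ P) :
    ∃ F', Fam G F' ∧ F'.card + 1 = F.card ∧ Coarse F F' ∧ (∀ Q ∈ F', ∀ v ∈ Q, v ∈ J ∨ ∃ P ∈ F, v ∈ P) ∧
      ∀ Q ∈ F', ∀ v, IsEnd Q v → v ≠ a1 ∧ v ≠ a2 ∧ ∃ P ∈ F, IsEnd P v := by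
  obtain ⟨Q1, b1, hQ1, hm1, hl1, he1⟩ := orient (hF.1 P1 h1).1 ha1
  obtain ⟨Q2, b2, hQ2', hm2', hl2', he2'⟩ := orient (hF.1 P2 h2).1 ha2
  have hQ2 := rev hQ2'
  have hm2 : ∀ v, v ∈ Q2.reverse ↔ v ∈ P2 := fun v => by rw [List.mem_reverse, hm2']
  have hdis : ∀ v, v ∈ P1 → v ∈ P2 → False := fun v hv hv' => hne (hF.eq h1 h2 hv hv')
  have hJ1 : ∀ v ∈ J, v ∈ P1 → v = a1 := by
    intro v hv hv1
    by_contra hva
    by_cases hv2 : v = a2
    · exact hdis v hv1 (hv2 ▸ end_mem ha2)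
    · exact hJF v hv hva hv2 P1 h1 hv1
  have hJ2 : ∀ v ∈ J, v ∈ P2 → v = a2 := by
    intro v hv hv1
    by_contra hva
    by_cases hv2 : v = a1
    · exact hdis v (hv2 ▸ end_mem ha1) hv1
    · exact hJF v hv hv2 hva P2 h2 hv1
  have hg1 : IsPB G (Q1 ++ J.tail) b1 a2 := glue hQ1 hJ (fun x hx hx' => hJ1 x hx' ((hm1 x).1 hx))
  have hg2 : IsPB G ((Q1 ++ J.tail) ++ Q2.reverse.tail) b1 b2 := by
    refine glue hg1 hQ2 (fun x hx hx' => ?_)
    rcases mem_glue hx with hx | hx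
    · exact (hdis x ((hm1 x).1 hx) ((hm2 x).1 hx')).elim
    · exact hJ2 x hx ((hm2 x).1 hx')
  set N := (Q1 ++ J.tail) ++ Q2.reverse.tail with hN
  have hN1 : ∀ v ∈ P1, v ∈ N := fun v hv => by
    rw [hN]
    exact List.mem_append_left _ (List.mem_append_left _ ((hm1 v).2 hv))
  have hN2 : ∀ v ∈ P2, v ∈ N := fun v hv => by
    by_cases hva : v = a2
    · rw [hva, hN]
      refine List.mem_append_left _ (last_mem hg1.2.2)
    · rw [hN]
      exact List.mem_append_right _ (LP.Reroute.not_mem_tail hQ2.2.1 ((hm2 v).2 hv) hva)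
  have hNm : ∀ v ∈ N, v ∈ P1 ∨ v ∈ J ∨ v ∈ P2 := by
    intro v hv
    rcases mem_glue hv with hv | hv
    · rcases mem_glue hv with hv | hv
      · exact Or.inl ((hm1 v).1 hv)
      · exact Or.inr (Or.inl hv)
    · exact Or.inr (Or.inr ((hm2 v).1 hv))
  have hNd : ∀ Q ∈ (F.erase P1).erase P2, ∀ v ∈ N, v ∉ Q := by
    intro Q hQ v hv hvQ
    rw [Finset.mem_erase, Finset.mem_erase] at hQ
    rcases hNm v hv with h | h | h
    · exact hQ.2.1 (hF.eq hQ.2.2 h1 hvQ h)
    · by_cases hva : v = a1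
      · exact hQ.2.1 (hF.eq hQ.2.2 h1 hvQ (hva ▸ end_mem ha1))
      · by_cases hvb : v = a2
        · exact hQ.1 (hF.eq hQ.2.2 h2 hvQ (hvb ▸ end_mem ha2))
        · exact hJF v h hva hvb Q hQ.2.2 hvQ
    · exact hQ.1 (hF.eq hQ.2.2 h2 hvQ h)
  have hNn : N ∉ (F.erase P1).erase P2 := fun h => hNd N h b1 (head_mem hg2.2.1) (head_mem hg2.2.1)
  have hlen1 := (hF.1 P1 h1).2
  have hlen2 := (hF.1 P2 h2).2
  have hab1 : b1 ≠ a1 := pb_ne hQ1 (by omega)
  have hab2 : b2 ≠ a2 := (pb_ne hQ2 (by rw [List.length_reverse]; omega)).symm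
  have hb1 : b1 ∈ P1 := (hm1 b1).1 (head_mem hQ1.2.1)
  have hb2 : b2 ∈ P2 := (hm2' b2).1 (head_mem hQ2'.2.1)
  refine ⟨insert N ((F.erase P1).erase P2), ⟨?_, ?_⟩, ?_, ?_, ?_, ?_⟩
  · intro P hP
    rcases Finset.mem_insert.1 hP with rfl | hP
    · refine ⟨hg2.1, ?_⟩
      have : Q1.length ≤ N.length := by rw [hN, List.length_append, List.length_append]; omega
      omega
    · exact hF.1 P (Finset.mem_of_mem_erase (Finset.mem_of_mem_erase hP))
  · intro P hP Q hQ hPQ
    rcases Finset.mem_insert.1 hP with rfl | hP <;> rcases Finset.mem_insert.1 hQ with rfl | hQ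
    · exact absurd rfl hPQ
    · intro v hv hv'
      exact hNd Q hQ v hv hv'
    · intro v hv hv'
      exact hNd P hP v hv' hv
    · exact hF.2 P (Finset.mem_of_mem_erase (Finset.mem_of_mem_erase hP)) Q
        (Finset.mem_of_mem_erase (Finset.mem_of_mem_erase hQ)) hPQ
  · rw [Finset.card_insert_of_notMem hNn, Finset.card_erase_of_mem (Finset.mem_erase.2 ⟨hne.symm, h2⟩),
      Finset.card_erase_of_mem h1]
    have : 2 ≤ F.card := by
      rw [← Finset.card_pair hne]
      exact Finset.card_le_card (by intro x hx; simp at hx; rcases hx with rfl | rfl <;> assumption)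
    omega
  · intro P hP
    by_cases hP1 : P = P1
    · exact ⟨N, Finset.mem_insert_self _ _, fun v hv => hN1 v (hP1 ▸ hv)⟩
    · by_cases hP2 : P = P2
      · exact ⟨N, Finset.mem_insert_self _ _, fun v hv => hN2 v (hP2 ▸ hv)⟩
      · exact ⟨P, Finset.mem_insert_of_mem (Finset.mem_erase.2 ⟨hP2, Finset.mem_erase.2 ⟨hP1, hP⟩⟩), fun v hv => hv⟩
  · intro Q hQ v hv
    rcases Finset.mem_insert.1 hQ with rfl | hQ
    · rcases hNm v hv with h | h | h
      · exact Or.inr ⟨P1, h1, h⟩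
      · exact Or.inl h
      · exact Or.inr ⟨P2, h2, h⟩
    · exact Or.inr ⟨Q, Finset.mem_of_mem_erase (Finset.mem_of_mem_erase hQ), hv⟩
  · intro Q hQ v hv
    rcases Finset.mem_insert.1 hQ with rfl | hQ
    · rcases (isEnd_iff hg2).1 hv with rfl | rfl
      · exact ⟨hab1, fun h => hdis v hb1 (h ▸ end_mem ha2), P1, h1, (he1 _).1 ((isEnd_iff hQ1).2 (Or.inl rfl))⟩
      · exact ⟨fun h => hdis v (h ▸ end_mem ha1) hb2, hab2, P2, h2, (he2' _).1 ((isEnd_iff hQ2').2 (Or.inl rfl))⟩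
    · have hQF := Finset.mem_of_mem_erase (Finset.mem_of_mem_erase hQ)
      rw [Finset.mem_erase, Finset.mem_erase] at hQ
      refine ⟨?_, ?_, Q, hQF, hv⟩
      · rintro rfl
        exact hQ.2.1 (hF.eq hQF h1 (end_mem hv) (end_mem ha1))
      · rintro rfl
        exact hQ.1 (hF.eq hQF h2 (end_mem hv) (end_mem ha2))

/-- extension of a path at its two ends -/
def ext (X : V → List V) (P : List V) : List V :=
  ((P.head?.map X).getD []).reverse ++ P ++ (P.getLast?.map X).getD []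

theorem ext_eq {X : V → List V} {P : List V} {a b : V} (h : IsPB G P a b) :
    ext X P = (X a).reverse ++ P ++ X b := by
  unfold ext
  rw [h.2.1, h.2.2]
  rfl

theorem mem_ext {X : V → List V} {P : List V} (h : IsP G P) {v : V} :
    v ∈ ext X P ↔ v ∈ P ∨ ∃ e, IsEnd P e ∧ v ∈ X e := by
  obtain ⟨a, b, hP⟩ := exists_pb h
  rw [ext_eq hP, List.mem_append, List.mem_append, List.mem_reverse]
  constructor
  · rintro ((h | h) | h)
    · exact Or.inr ⟨a, (isEnd_iff hP).2 (Or.inl rfl), h⟩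
    · exact Or.inl h
    · exact Or.inr ⟨b, (isEnd_iff hP).2 (Or.inr rfl), h⟩
  · rintro (h | ⟨e, he, h⟩)
    · exact Or.inl (Or.inr h)
    · rcases (isEnd_iff hP).1 he with rfl | rfl
      · exact Or.inl (Or.inl h)
      · exact Or.inr h

theorem ext_pb {X : V → List V} {P : List V} {a b a' b' : V} (h : IsPB G P a b) (ha : IsPB G (a :: X a) a a')
    (hb : IsPB G (b :: X b) b b') (h1 : ∀ x ∈ X a, x ∉ P) (h2 : ∀ x ∈ X b, x ∉ P) (h3 : List.Disjoint (X a) (X b)) :
    IsPB G (ext X P) a' b' := by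
  have hg1 : IsPB G (P ++ X b) a b' := glue h hb (fun x hx hx' => by
    rcases List.mem_cons.1 hx' with h | h
    · exact h
    · exact absurd hx (h2 x h))
  have hg2 : IsPB G ((a :: X a).reverse ++ (P ++ X b).tail) a' b' := by
    refine glue (rev ha) hg1 (fun x hx hx' => ?_)
    rcases List.mem_cons.1 (List.mem_reverse.1 hx) with h | h
    · exact h
    · rcases List.mem_append.1 hx' with h' | h'
      · exact absurd h' (h1 x h)
      · exact (h3 h h').elim
  have : ext X P = (a :: X a).reverse ++ (P ++ X b).tail := by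
    rw [ext_eq h]
    obtain ⟨x, l, rfl⟩ := List.exists_cons_of_ne_nil h.1.1
    have hx : x = a := by simpa using h.2.1
    subst hx
    simp
  rw [this]
  exact hg2

/-- Extending all the paths of a family. -/
theorem ext_fam {F : Finset (List V)} (hF : Fam G F) (X : V → List V)
    (hX : ∀ P ∈ F, ∀ v, IsEnd P v → IsP G (v :: X v) ∧ ∀ x ∈ X v, ∀ Q ∈ F, x ∉ Q)
    (hXX : ∀ v v', (∃ P ∈ F, IsEnd P v) → (∃ P ∈ F, IsEnd P v') → v ≠ v' → List.Disjoint (X v) (X v')) :
    ∃ F', Fam G F' ∧ F'.card = F.card ∧ Coarse F F' ∧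
      (∀ Q ∈ F', ∀ v ∈ Q, (∃ P ∈ F, v ∈ P) ∨ ∃ P ∈ F, ∃ e, IsEnd P e ∧ v ∈ X e) ∧
      ∀ Q ∈ F', ∀ w, IsEnd Q w → ∃ P ∈ F, ∃ v, IsEnd P v ∧ (v :: X v).getLast? = some w := by
  have hdis : ∀ P ∈ F, ∀ Q ∈ F, P ≠ Q → ∀ v ∈ ext X P, v ∉ ext X Q := by
    intro P hP Q hQ hne v hv hv'
    rw [mem_ext (hF.1 P hP).1] at hv
    rw [mem_ext (hF.1 Q hQ).1] at hv'
    rcases hv with hv | ⟨e, he, hv⟩ <;> rcases hv' with hv' | ⟨e', he', hv'⟩
    · exact hF.2 P hP Q hQ hne hv hv'
    · exact (hX Q hQ e' he').2 v hv' P hP hv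
    · exact (hX P hP e he).2 v hv Q hQ hv'
    · refine hXX e e' ⟨P, hP, he⟩ ⟨Q, hQ, he'⟩ ?_ hv hv'
      rintro rfl
      exact hF.2 P hP Q hQ hne (end_mem he) (end_mem he')
  have hpb : ∀ P ∈ F, ∃ a b a' b', IsPB G P a b ∧ IsPB G (a :: X a) a a' ∧ IsPB G (b :: X b) b b' ∧
      IsPB G (ext X P) a' b' := by
    intro P hP
    obtain ⟨a, b, hab⟩ := exists_pb (hF.1 P hP).1
    have hea : IsEnd P a := (isEnd_iff hab).2 (Or.inl rfl)
    have heb : IsEnd P b := (isEnd_iff hab).2 (Or.inr rfl)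
    obtain ⟨a0, a', ha⟩ := exists_pb (hX P hP a hea).1
    obtain ⟨b0, b', hb⟩ := exists_pb (hX P hP b heb).1
    have ha0 : a = a0 := by simpa using ha.2.1
    have hb0 : b = b0 := by simpa using hb.2.1
    subst ha0 hb0
    refine ⟨a, b, a', b', hab, ha, hb, ext_pb hab ha hb ?_ ?_ ?_⟩
    · exact fun x hx => (hX P hP a hea).2 x hx P hP
    · exact fun x hx => (hX P hP b heb).2 x hx P hP
    · exact hXX a b ⟨P, hP, hea⟩ ⟨P, hP, heb⟩ (pb_ne hab (hF.1 P hP).2)
  have hinj : Set.InjOn (ext X) (F : Set (List V)) := by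
    intro P hP Q hQ he
    by_contra hne
    obtain ⟨a, b, _, _, hab, _⟩ := hpb P hP
    have ha : a ∈ ext X P := (mem_ext (hF.1 P hP).1).2 (Or.inl (head_mem hab.2.1))
    exact hdis P hP Q hQ hne a ha (he ▸ ha)
  refine ⟨F.image (ext X), ⟨?_, ?_⟩, Finset.card_image_of_injOn hinj, ?_, ?_, ?_⟩
  · intro Q hQ
    obtain ⟨P, hP, rfl⟩ := Finset.mem_image.1 hQ
    obtain ⟨a, b, a', b', hab, _, _, h⟩ := hpb P hP
    refine ⟨h.1, ?_⟩
    have := (hF.1 P hP).2
    rw [ext_eq hab, List.length_append, List.length_append]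
    omega
  · intro Q hQ Q' hQ' hne
    obtain ⟨P, hP, rfl⟩ := Finset.mem_image.1 hQ
    obtain ⟨P', hP', rfl⟩ := Finset.mem_image.1 hQ'
    intro v hv hv'
    exact hdis P hP P' hP' (fun h => hne (by rw [h])) v hv hv'
  · intro P hP
    exact ⟨ext X P, Finset.mem_image_of_mem _ hP, fun v hv => (mem_ext (hF.1 P hP).1).2 (Or.inl hv)⟩
  · intro Q hQ v hv
    obtain ⟨P, hP, rfl⟩ := Finset.mem_image.1 hQ
    rcases (mem_ext (hF.1 P hP).1).1 hv with h | ⟨e, he, h⟩
    · exact Or.inl ⟨P, hP, h⟩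
    · exact Or.inr ⟨P, hP, e, he, h⟩
  · intro Q hQ w hw
    obtain ⟨P, hP, rfl⟩ := Finset.mem_image.1 hQ
    obtain ⟨a, b, a', b', hab, ha, hb, h⟩ := hpb P hP
    rcases (isEnd_iff h).1 hw with rfl | rfl
    · exact ⟨P, hP, a, (isEnd_iff hab).2 (Or.inl rfl), ha.2.2⟩
    · exact ⟨P, hP, b, (isEnd_iff hab).2 (Or.inr rfl), hb.2.2⟩

/-- dropping the last vertex of a path -/
theorem drop_last {J : List V} {a b : V} (h : IsPB G J b a) (hne : a ≠ b) :
    ∃ y J', J = J' ++ [a] ∧ IsPB G J' b y ∧ G.Adj y a := by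
  rcases List.eq_nil_or_concat J with h1 | ⟨J', z, h1⟩
  · exact absurd h1 h.1.1
  · rw [List.concat_eq_append] at h1
    have hz : z = a := by
      have := h.2.2
      rw [h1, List.getLast?_append] at this
      simpa using this
    subst hz
    rcases List.eq_nil_or_concat J' with h2 | ⟨J'', y, h2⟩
    · exfalso
      have := h.2.1
      rw [h1, h2] at this
      exact hne (by simpa using this)
    · rw [List.concat_eq_append] at h2
      have hc := h.1.2.1
      have hn := h.1.2.2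
      have hh := h.2.1
      rw [h1, List.isChain_append] at hc
      rw [h1, List.nodup_append] at hn
      refine ⟨y, J', h1, ⟨⟨by rw [h2]; simp, hc.1, hn.1⟩, ?_, by rw [h2]; simp⟩, ?_⟩
      · rw [h1, List.head?_append] at hh
        rw [h2] at hh ⊢
        cases J'' with
        | nil => simpa using hh
        | cons x l => simpa using hh
      · exact hc.2.2 y (by rw [h2]; simp) z (by simp)

/-- Closing a path to a cycle. -/
theorem close_up {P J : List V} {a b : V} (h : IsPB G P a b) (hne : a ≠ b) (hJ : IsPB G J b a)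
    (hd : ∀ v ∈ J, v ≠ a → v ≠ b → v ∉ P) (hlen : 3 ≤ P.length ∨ 3 ≤ J.length) :
    ∃ cy, Cyc G cy ∧ ∀ v, v ∈ cy ↔ v ∈ P ∨ v ∈ J := by
  obtain ⟨y, J', hJ', hp, hadj⟩ := drop_last hJ hne
  have haJ : a ∉ J' := by
    have := hJ.1.2.2
    rw [hJ', List.nodup_append] at this
    intro h
    exact this.2.2 a h a (by simp) rfl
  have hg : IsPB G (P ++ J'.tail) a y := by
    refine glue h hp (fun x hx hx' => ?_)
    by_contra hxb
    by_cases hxa : x = a
    · exact haJ (hxa ▸ hx')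
    · exact hd x (by rw [hJ']; exact List.mem_append_left _ hx') hxa hxb hx
  have hP2 := two_le h.2.1 h.2.2 hne
  have hJ2 := two_le hJ.2.1 hJ.2.2 hne.symm
  refine ⟨P ++ J'.tail, ⟨hg.1, ?_, a, y, hg.2.1, hg.2.2, hadj⟩, fun v => ?_⟩
  · rw [hJ', List.length_append, List.length_singleton] at hlen hJ2
    rw [List.length_append, List.length_tail]
    omega
  · rw [hJ', List.mem_append, List.mem_append, List.mem_singleton]
    constructor
    · rintro (h1 | h1)
      · exact Or.inl h1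
      · exact Or.inr (Or.inl (List.mem_of_mem_tail h1))
    · rintro (h1 | h1 | h1)
      · exact Or.inl h1
      · by_cases hvb : v = b
        · exact Or.inl (hvb ▸ last_mem h.2.2)
        · exact Or.inr (LP.Reroute.not_mem_tail hp.2.1 h1 hvb)
      · exact Or.inl (h1 ▸ head_mem h.2.1)

/-- In a path from a vertex of one class to a vertex of another class there is a piece between different classes
without inner vertices in the classes. -/
theorem split_own {ι : Type*} (own : V → ι → Prop) : ∀ n : ℕ, ∀ (L : List V) (x x' : V) (P Q : ι), L.length ≤ n →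
    IsPB G L x x' → own x P → own x' Q → P ≠ Q → ∃ Y y y' P' Q', IsPB G Y y y' ∧ own y P' ∧ own y' Q' ∧ P' ≠ Q' ∧
      (∀ v ∈ Y, v ∈ L) ∧ ∀ v ∈ Y, v ≠ y → v ≠ y' → ∀ P'', ¬ own v P'' := by
  intro n
  induction n with
  | zero =>
    intro L x x' P Q hL h _ _ _
    exact absurd (List.length_eq_zero_iff.1 (Nat.le_zero.1 hL)) h.1.1
  | succ n ih =>
    intro L x x' P Q hL h hx hx' hne
    by_cases hz : ∀ v ∈ L, v ≠ x → v ≠ x' → ∀ P'', ¬ own v P''
    · exact ⟨L, x, x', P, Q, h, hx, hx', hne, fun v hv => hv, hz⟩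
    · push Not at hz
      obtain ⟨z, hzL, hzx, hzx', P', hP'⟩ := hz
      obtain ⟨s, t, hst⟩ := List.append_of_mem hzL
      subst hst
      have ht : t ≠ [] := by
        rintro rfl
        have := h.2.2
        rw [List.getLast?_append] at this
        exact hzx' (by simpa using this)
      have hs : s ≠ [] := by
        rintro rfl
        exact hzx (by simpa using h.2.1)
      have ht' := List.length_pos_iff.2 ht
      have hs' := List.length_pos_iff.2 hs
      rw [List.length_append, List.length_cons] at hL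
      by_cases hPP : P = P'
      · have hPQ : P' ≠ Q := hPP ▸ hne
        obtain ⟨Y, y, y', P1, Q1, h1, h2, h3, h4, h5, h6⟩ := ih (z :: t) z x' P' Q
          (by rw [List.length_cons]; omega) h.final hP' hx' hPQ
        exact ⟨Y, y, y', P1, Q1, h1, h2, h3, h4, fun v hv => List.mem_append_right _ (h5 v hv), h6⟩
      · obtain ⟨Y, y, y', P1, Q1, h1, h2, h3, h4, h5, h6⟩ := ih (s ++ [z]) x z P P'
          (by rw [List.length_append, List.length_singleton]; omega) h.initial hx hP' hPP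
        refine ⟨Y, y, y', P1, Q1, h1, h2, h3, h4, fun v hv => ?_, h6⟩
        have := h5 v hv
        rw [List.mem_append, List.mem_singleton] at this
        rw [List.mem_append, List.mem_cons]
        tauto

end Pool.Agent.Lib.MP_688fd0_co.ASY.H85
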