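import Pool.Agent.Lib.MP_688fd0_co.ASY.H85.JoinStep

/-!
The reversed ladder (helper85).
-/

set_option autoImplicit false

namespace Pool.Agent.Lib.MP_688fd0_co.ASY.H85

open Classical
open Pool.Agent.Lib.MP_688fd0_co.LP (IsP IsPB Conn Cyc)
open Pool.Agent.Lib.MP_688fd0_co.LP.Reroute (glue rev mem_glue head_mem last_mem two_le)
open Pool.Agent.Lib.MP_688fd0_co.LIN

universe u

variable {V : Type u} {G : SimpleGraph V} {c M : ℕ} {S R W : ℕ → Finset V} {T : ℕ → V → List V}

theorem mid_rev {i j : ℕ} (hi : i ≤ M) (hj : j ≤ M) {v : V} :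
    Mid (fun k => S (M - k)) (fun k => R (M - 1 - k)) i j v ↔ Mid S R (M - j) (M - i) v := by
  constructor
  · rintro (⟨k, h1, h2, h3⟩ | ⟨k, h1, h2, h3⟩)
    · exact Or.inl ⟨M - 1 - k, by omega, by omega, h3⟩
    · exact Or.inr ⟨M - k, by omega, by omega, h3⟩
  · rintro (⟨k, h1, h2, h3⟩ | ⟨k, h1, h2, h3⟩)
    · refine Or.inl ⟨M - 1 - k, by omega, by omega, ?_⟩
      have : M - 1 - (M - 1 - k) = k := by omega
      show v ∈ R (M - 1 - (M - 1 - k))
      rw [this]
      exact h3
    · refine Or.inr ⟨M - k, by omega, by omega, ?_⟩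
      have : M - (M - k) = k := by omega
      show v ∈ S (M - (M - k))
      rw [this]
      exact h3

theorem st_rev {i j : ℕ} (hi : i ≤ M) (hj : j ≤ M) {F : Finset (List V)} :
    St G (fun k => S (M - k)) (fun k => R (M - 1 - k)) i j F ↔ St G S R (M - j) (M - i) F := by
  constructor
  · intro h
    exact ⟨h.fam, h.ne, fun P hP v hv hm => h.out P hP v hv ((mid_rev hi hj).2 hm),
      fun P hP v hv => (h.ends P hP v hv).symm⟩
  · intro h
    exact ⟨h.fam, h.ne, fun P hP v hv hm => h.out P hP v hv ((mid_rev hi hj).1 hm),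
      fun P hP v hv => (h.ends P hP v hv).symm⟩

/-- the last vertices of the tracks -/
theorem Ladder.surj (hL : Ladder G c M S R W T) {i : ℕ} (hi : i < M) {b : V} (hb : b ∈ S (i + 1)) :
    ∃ a ∈ S i, (T i a).getLast? = some b := by
  have h1 : ∀ a : S i, ∃ b : S (i + 1), (T i a.1).getLast? = some b.1 := by
    intro a
    obtain ⟨b, hb, h, _⟩ := hL.tr hi a.2
    exact ⟨⟨b, hb⟩, h.2.2⟩
  choose f hf using h1
  have hinj : Function.Injective f := by
    intro a a' he
    by_contra hne
    have h1 : (f a).1 ∈ T i a.1 := last_mem (hf a)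
    have h2 : (f a).1 ∈ T i a'.1 := by
      rw [he]
      exact last_mem (hf a')
    exact hL.disj i hi a.1 a.2 a'.1 a'.2 (fun h => hne (Subtype.ext h)) h1 h2
  have hcard : Fintype.card (S (i + 1)) ≤ Fintype.card (S i) := by
    rw [Fintype.card_coe, Fintype.card_coe, hL.card i (by omega), hL.card (i + 1) (by omega)]
  have hsurj : Function.Surjective f :=
    ((Fintype.bijective_iff_injective_and_card f).2 ⟨hinj, le_antisymm (Fintype.card_le_of_injective f hinj) hcard⟩).2
  obtain ⟨a, ha⟩ := hsurj ⟨b, hb⟩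
  refine ⟨a.1, a.2, ?_⟩
  rw [hf a, ha]

theorem Ladder.reversed (hL : Ladder G c M S R W T) :
    ∃ T', Ladder G c M (fun k => S (M - k)) (fun k => R (M - 1 - k)) (fun k => W (M - 1 - k)) T' := by
  have key : ∀ i < M, ∀ b ∈ S (M - i), ∃ a ∈ S (M - 1 - i), (T (M - 1 - i) a).getLast? = some b := by
    intro i hi b hb
    refine hL.surj (by omega) ?_
    have : M - 1 - i + 1 = M - i := by omega
    rw [this]
    exact hb
  choose f hf1 hf2 using key
  let T' : ℕ → V → List V := fun i b => if h : i < M ∧ b ∈ S (M - i) then (T (M - 1 - i) (f i h.1 b h.2)).reverse else []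
  have hT' : ∀ i (hi : i < M) b (hb : b ∈ S (M - i)), T' i b = (T (M - 1 - i) (f i hi b hb)).reverse := by
    intro i hi b hb
    simp only [T', dif_pos (⟨hi, hb⟩ : i < M ∧ b ∈ S (M - i))]
  refine ⟨T', ?_, ?_, ?_, ?_, ?_, ?_, ?_, ?_⟩
  · exact fun i hi => hL.card (M - i) (by omega)
  · exact fun i hi j hj hne => hL.disS (M - i) (by omega) (M - j) (by omega) (by omega)
  · exact fun i hi j hj hne => hL.disR (M - 1 - i) (by omega) (M - 1 - j) (by omega) (by omega)
  · exact fun i hi j hj => hL.disSR (M - i) (by omega) (M - 1 - j) (by omega)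
  · exact fun i hi => hL.WR (M - 1 - i) (by omega)
  · intro i hi b hb
    rw [hT' i hi b hb]
    obtain ⟨b', hb', hab, hm⟩ := hL.tr (show M - 1 - i < M by omega) (hf1 i hi b hb)
    have hbb : b' = b := by
      have := hab.2.2.symm.trans (hf2 i hi b hb)
      simpa using this
    subst hbb
    obtain ⟨h1, h2, _, h4⟩ := hL.path (M - 1 - i) (by omega) _ (hf1 i hi b' hb)
    have hr := LP.Reroute.rev hab
    refine ⟨hr.1, hr.2.1, ⟨f i hi b' hb, ?_, hr.2.2⟩, ?_⟩
    · have : M - (i + 1) = M - 1 - i := by omega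
      show f i hi b' hb ∈ S (M - (i + 1))
      rw [this]
      exact hf1 i hi b' hb
    · intro v hv
      refine h4 v ?_
      rw [List.tail_reverse, List.dropLast_reverse, List.mem_reverse, List.tail_dropLast] at hv
      exact hv
  · intro i hi b hb b' hb' hne
    rw [hT' i hi b hb, hT' i hi b' hb']
    have hne' : f i hi b hb ≠ f i hi b' hb' := by
      intro h
      have h1 := hf2 i hi b hb
      rw [h, hf2 i hi b' hb'] at h1
      exact hne (by simpa using h1.symm)
    intro v hv hv'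
    exact hL.disj (M - 1 - i) (by omega) _ (hf1 i hi b hb) _ (hf1 i hi b' hb') hne' (List.mem_reverse.1 hv)
      (List.mem_reverse.1 hv')
  · intro i hi b hb b' hb'
    rw [hT' i hi b hb, hT' i hi b' hb']
    obtain ⟨x, hx, x', hx', h⟩ := hL.conn (M - 1 - i) (by omega) _ (hf1 i hi b hb) _ (hf1 i hi b' hb')
    exact ⟨x, List.mem_reverse.2 hx, x', List.mem_reverse.2 hx', h⟩

/-- The loops at the two ends. -/
theorem Ladder.both (hL : Ladder G c M S R W T) {F : Finset (List V)} (hF : St G S R 0 M F) (hc : F.card < M) :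
    ∃ i j F', i ≤ j ∧ j ≤ M ∧ i + (M - j) + F'.card ≤ F.card ∧ St G S R i j F' ∧ One S i F' ∧ One S j F' ∧
      Coarse F F' ∧ ∀ Q ∈ F', ∀ v ∈ Q, Mid S R 0 M v ∨ ∃ P ∈ F, v ∈ P := by
  obtain ⟨i, F1, h0, h1, h2, h3, h4⟩ := hL.loop le_rfl F.card 0 F rfl hF (by omega)
  obtain ⟨T', hL'⟩ := hL.reversed
  have hiM : i ≤ M := by omega
  have hSt : St G (fun k => S (M - k)) (fun k => R (M - 1 - k)) 0 (M - i) F1 := by
    rw [st_rev (by omega) (by omega)]
    have e1 : M - (M - i) = i := by omega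
    rw [e1]
    exact h2
  obtain ⟨i', F2, h0', h1', h2', h3', h4'⟩ := hL'.loop (show M - i ≤ M by omega) F1.card 0 F1 rfl hSt (by omega)
  have hi'M : i' ≤ M := by omega
  rw [st_rev hi'M (by omega)] at h2'
  have e1 : M - (M - i) = i := by omega
  rw [e1] at h2'
  refine ⟨i, M - i', F2, by omega, by omega, by omega, h2', ?_, h3', h4.coarse.trans h4'.coarse, ?_⟩
  · have h5 : One (fun k => S (M - k)) (M - i) F1 := by
      intro P hP Q hQ v w hv hw hvS hwS
      exact h3 P hP Q hQ v w hv hw (by simpa only [e1] using hvS) (by simpa only [e1] using hwS)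
    have h6 := h4'.one h2'.fam h5
    intro P hP Q hQ v w hv hw hvS hwS
    exact h6 P hP Q hQ v w hv hw (by simpa only [e1] using hvS) (by simpa only [e1] using hwS)
  · intro Q hQ v hv
    rcases h4'.sub Q hQ v hv with h | ⟨P, hP, h⟩
    · left
      rw [mid_rev (by omega) le_rfl] at h
      simpa using h
    · exact h4.sub P hP v h

end Pool.Agent.Lib.MP_688fd0_co.ASY.H85
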