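import Pool.Agent.Lib.MP_688fd0_co.ASY.H85.JoinFam

/-!
One level of a ladder: pass or join (helper85).
-/

set_option autoImplicit false

namespace Pool.Agent.Lib.MP_688fd0_co.ASY.H85

open Classical
open Pool.Agent.Lib.MP_688fd0_co.LP (IsP IsPB Conn Cyc)
open Pool.Agent.Lib.MP_688fd0_co.LP.Reroute (glue rev mem_glue head_mem last_mem two_le)
open Pool.Agent.Lib.MP_688fd0_co.LIN

universe u

variable {V : Type u} {G : SimpleGraph V} {c M : ℕ} {S R W : ℕ → Finset V} {T : ℕ → V → List V}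

theorem mem_inner {l : List V} {a b v : V} (ha : l.head? = some a) (hb : l.getLast? = some b) (hv : v ∈ l)
    (hva : v ≠ a) (hvb : v ≠ b) : v ∈ l.tail.dropLast := by
  have h1 : v ∈ l.tail := LP.Reroute.not_mem_tail ha hv hva
  refine LP.Reroute.mem_dropLast' ?_ h1 hvb
  rcases l with _ | ⟨x, l⟩
  · simp at hv
  · rcases List.eq_nil_or_concat l with h | ⟨l', z, h⟩
    · subst h
      simp at h1
    · subst h
      rw [List.concat_eq_append, ← List.cons_append, List.getLast?_append] at hb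
      rw [List.tail_cons, List.concat_eq_append, List.getLast?_append]
      simpa using hb

theorem cons_tail {l : List V} {a : V} (ha : l.head? = some a) : a :: l.tail = l := by
  cases l with
  | nil => simp at ha
  | cons x l =>
    have : x = a := by simpa using ha
    rw [this, List.tail_cons]

theorem Mid.mono {i j i' j' : ℕ} {v : V} (h : Mid S R i' j' v) (hi : i ≤ i') (hj : j' ≤ j) : Mid S R i j v := by
  rcases h with ⟨k, h1, h2, h3⟩ | ⟨k, h1, h2, h3⟩
  · exact Or.inl ⟨k, by omega, by omega, h3⟩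
  · exact Or.inr ⟨k, by omega, by omega, h3⟩

section ladder

variable (hL : Ladder G c M S R W T)
include hL

theorem Ladder.nSS {i j : ℕ} (hi : i ≤ M) (hj : j ≤ M) (hne : i ≠ j) {v : V} (h : v ∈ S i) : v ∉ S j := fun h' =>
  Finset.disjoint_left.1 (hL.disS i hi j hj hne) h h'

theorem Ladder.nRR {i j : ℕ} (hi : i < M) (hj : j < M) (hne : i ≠ j) {v : V} (h : v ∈ R i) : v ∉ R j := fun h' =>
  Finset.disjoint_left.1 (hL.disR i hi j hj hne) h h'

theorem Ladder.nSR {i j : ℕ} (hi : i ≤ M) (hj : j < M) {v : V} (h : v ∈ S i) : v ∉ R j := fun h' =>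
  Finset.disjoint_left.1 (hL.disSR i hi j hj) h h'

/-- before level `i + 1` -/
theorem Ladder.not_mid_R {i j : ℕ} (hi : i < M) (hj : j ≤ M) {v : V} (h : v ∈ R i) : ¬ Mid S R (i + 1) j v := by
  rintro (⟨k, h1, h2, h3⟩ | ⟨k, h1, h2, h3⟩)
  · exact hL.nRR hi (by omega) (by omega) h h3
  · exact hL.nSR (by omega) hi h3 h

theorem Ladder.not_mid_S {i j : ℕ} (hi : i < M) (hj : j ≤ M) {v : V} (h : v ∈ S i) : ¬ Mid S R (i + 1) j v := by
  rintro (⟨k, h1, h2, h3⟩ | ⟨k, h1, h2, h3⟩)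
  · exact hL.nSR (by omega) (by omega) h h3
  · exact hL.nSS (by omega) (by omega) (by omega) h h3

theorem Ladder.not_mid_S' {i j : ℕ} (hi : i ≤ M) (hj : j ≤ M) {v : V} (h : v ∈ S i) : ¬ Mid S R i j v := by
  rintro (⟨k, h1, h2, h3⟩ | ⟨k, h1, h2, h3⟩)
  · exact hL.nSR (by omega) (by omega) h h3
  · exact hL.nSS (by omega) (by omega) (by omega) h h3

theorem Ladder.tr {i : ℕ} (hi : i < M) {a : V} (ha : a ∈ S i) : ∃ b ∈ S (i + 1), IsPB G (T i a) a b ∧
    ∀ v ∈ T i a, v = a ∨ v = b ∨ v ∈ R i := by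
  obtain ⟨h1, h2, ⟨b, hb, h3⟩, h4⟩ := hL.path i hi a ha
  refine ⟨b, hb, ⟨h1, h2, h3⟩, fun v hv => ?_⟩
  by_cases hva : v = a
  · exact Or.inl hva
  · by_cases hvb : v = b
    · exact Or.inr (Or.inl hvb)
    · exact Or.inr (Or.inr (h4 v (mem_inner h2 h3 hv hva hvb)))

/-- the first part of a track -/
theorem Ladder.pre {i : ℕ} (hi : i < M) {a y : V} (ha : a ∈ S i) (hy : y ∈ T i a) (hyR : y ∈ R i) :
    ∃ A, IsPB G A a y ∧ ∀ v ∈ A, v ∈ T i a ∧ (v = a ∨ v ∈ R i) := by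
  obtain ⟨b, hb, hab, hm⟩ := hL.tr hi ha
  obtain ⟨s, t, hst⟩ := List.append_of_mem hy
  rw [hst] at hab
  refine ⟨s ++ [y], hab.initial, fun v hv => ?_⟩
  have hvT : v ∈ T i a := by
    rw [hst]
    rw [List.mem_append, List.mem_singleton] at hv
    rw [List.mem_append, List.mem_cons]
    tauto
  refine ⟨hvT, ?_⟩
  rcases hm v hvT with h | h | h
  · exact Or.inl h
  · exfalso
    rw [List.mem_append, List.mem_singleton] at hv
    rcases hv with hv | hv
    · have hbt : b ∈ y :: t := last_mem hab.final.2.2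
      exact (List.nodup_append.1 hab.1.2.2).2.2 b (h ▸ hv) b hbt rfl
    · exact hL.nSR (show i + 1 ≤ M from hi) hi hb (by rw [← h, hv]; exact hyR)
  · exact Or.inr h

end ladder

/-- the state: a family outside the part of the ladder from `i` to `j`, with ends at `i` and `j` -/
structure St (G : SimpleGraph V) (S R : ℕ → Finset V) (i j : ℕ) (F : Finset (List V)) : Prop where
  fam : Fam G F
  ne : F.Nonempty
  out : ∀ P ∈ F, ∀ v ∈ P, ¬ Mid S R i j v
  ends : ∀ P ∈ F, ∀ v, IsEnd P v → v ∈ S i ∨ v ∈ S j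

/-- all ends in `S i` are on one path -/
def One (S : ℕ → Finset V) (i : ℕ) (F : Finset (List V)) : Prop :=
  ∀ P ∈ F, ∀ Q ∈ F, ∀ v w, IsEnd P v → IsEnd Q w → v ∈ S i → w ∈ S i → P = Q

structure Rel (S R : ℕ → Finset V) (M j : ℕ) (F F' : Finset (List V)) : Prop where
  coarse : Coarse F F'
  sub : ∀ Q ∈ F', ∀ v ∈ Q, Mid S R 0 M v ∨ ∃ P ∈ F, v ∈ P
  right : ∀ Q ∈ F', ∀ v, IsEnd Q v → v ∈ S j → ∃ P ∈ F, IsEnd P v

theorem Rel.refl {j : ℕ} (F : Finset (List V)) : Rel S R M j F F :=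
  ⟨Coarse.refl F, fun Q hQ _ hv => Or.inr ⟨Q, hQ, hv⟩, fun Q hQ _ hv _ => ⟨Q, hQ, hv⟩⟩

theorem Rel.trans {j : ℕ} {F F' F'' : Finset (List V)} (h : Rel S R M j F F') (h' : Rel S R M j F' F'') :
    Rel S R M j F F'' := by
  refine ⟨h.coarse.trans h'.coarse, fun Q hQ v hv => ?_, fun Q hQ v hv hS => ?_⟩
  · rcases h'.sub Q hQ v hv with h1 | ⟨P, hP, h1⟩
    · exact Or.inl h1
    · exact h.sub P hP v h1
  · obtain ⟨P, hP, h1⟩ := h'.right Q hQ v hv hS
    exact h.right P hP v h1 hS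

theorem Rel.one {j : ℕ} {F F' : Finset (List V)} (h : Rel S R M j F F') (hF' : Fam G F') (h1 : One S j F) :
    One S j F' := by
  intro Q hQ Q' hQ' v w hv hw hvS hwS
  obtain ⟨P, hP, hPv⟩ := h.right Q hQ v hv hvS
  obtain ⟨P', hP', hPw⟩ := h.right Q' hQ' w hw hwS
  have hPP := h1 P hP P' hP' v w hPv hPw hvS hwS
  subst hPP
  obtain ⟨Q'', hQ'', h2⟩ := h.coarse P hP
  have e1 : Q = Q'' := hF'.eq hQ hQ'' (end_mem hv) (h2 v (end_mem hPv))
  have e2 : Q' = Q'' := hF'.eq hQ' hQ'' (end_mem hw) (h2 w (end_mem hPw))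
  rw [e1, e2]

section ladder

variable (hL : Ladder G c M S R W T)
include hL

/-- extension through level `i` -/
theorem Ladder.stepext {i j : ℕ} (hij : i + 1 < j) (hj : j ≤ M) {F : Finset (List V)} (hne : F.Nonempty)
    (hfam : Fam G F) (hout : ∀ P ∈ F, ∀ v ∈ P, ¬ Mid S R (i + 1) j v)
    (hends : ∀ P ∈ F, ∀ v, IsEnd P v → v ∈ S i ∨ v ∈ S j)
    (hT : ∀ P ∈ F, ∀ a, IsEnd P a → a ∈ S i → ∀ x ∈ T i a, x ≠ a → ∀ Q ∈ F, x ∉ Q) :
    ∃ F', St G S R (i + 1) j F' ∧ F'.card = F.card ∧ Rel S R M j F F' := by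
  have hi : i < M := by omega
  let X : V → List V := fun v => if v ∈ S i then (T i v).tail else []
  have hX1 : ∀ v ∈ S i, v :: X v = T i v := by
    intro v hv
    simp only [X, if_pos hv]
    exact cons_tail (hL.path i hi v hv).2.1
  have hX2 : ∀ v, v ∉ S i → X v = [] := by
    intro v hv
    simp only [X, if_neg hv]
  have hX3 : ∀ v ∈ S i, ∀ x ∈ X v, x ∈ T i v ∧ x ≠ v ∧ (x ∈ R i ∨ x ∈ S (i + 1)) := by
    intro v hv x hx
    obtain ⟨b, hb, hab, hm⟩ := hL.tr hi hv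
    have hxT : x ∈ T i v := by
      rw [← hX1 v hv]
      exact List.mem_cons_of_mem _ hx
    have hxv : x ≠ v := by
      rintro rfl
      have := hab.1.2.2
      rw [← hX1 x hv, List.nodup_cons] at this
      exact this.1 hx
    refine ⟨hxT, hxv, ?_⟩
    rcases hm x hxT with h | h | h
    · exact absurd h hxv
    · exact Or.inr (h ▸ hb)
    · exact Or.inl h
  obtain ⟨F', h1, h2, h3, h4, h5⟩ := ext_fam hfam X (by
    intro P hP v hv
    by_cases hvS : v ∈ S i
    · refine ⟨?_, fun x hx Q hQ => ?_⟩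
      · rw [hX1 v hvS]
        exact (hL.path i hi v hvS).1
      · obtain ⟨hx1, hx2, _⟩ := hX3 v hvS x hx
        exact hT P hP v hv hvS x hx1 hx2 Q hQ
    · rw [hX2 v hvS]
      refine ⟨⟨by simp, by simp, by simp⟩, by simp⟩) (by
    intro v v' _ _ hvv x hx hx'
    by_cases hvS : v ∈ S i
    · by_cases hvS' : v' ∈ S i
      · exact hL.disj i hi v hvS v' hvS' hvv (hX3 v hvS x hx).1 (hX3 v' hvS' x hx').1
      · rw [hX2 v' hvS'] at hx'
        simp at hx'
    · rw [hX2 v hvS] at hx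
      simp at hx)
  refine ⟨F', ⟨h1, ?_, ?_, ?_⟩, h2, ⟨h3, ?_, ?_⟩⟩
  · rw [← Finset.card_pos, h2, Finset.card_pos]
    exact hne
  · intro Q hQ v hv
    rcases h4 Q hQ v hv with ⟨P, hP, h⟩ | ⟨P, hP, e, he, h⟩
    · exact hout P hP v h
    · have heS : e ∈ S i := by
        by_contra heS
        rw [hX2 e heS] at h
        simp at h
      rcases (hX3 e heS v h).2.2 with h' | h'
      · exact hL.not_mid_R hi hj h'
      · exact hL.not_mid_S' (by omega) hj h'
  · intro Q hQ w hw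
    obtain ⟨P, hP, v, hv, h⟩ := h5 Q hQ w hw
    rcases hends P hP v hv with hv' | hv'
    · left
      rw [hX1 v hv'] at h
      obtain ⟨b, hb, hab, _⟩ := hL.tr hi hv'
      have : b = w := by
        have := hab.2.2.symm.trans h
        simpa using this
      exact this ▸ hb
    · right
      have hvS : v ∉ S i := hL.nSS hj (by omega) (by omega) hv'
      rw [hX2 v hvS] at h
      have : v = w := by simpa using h
      exact this ▸ hv'
  · intro Q hQ v hv
    rcases h4 Q hQ v hv with ⟨P, hP, h⟩ | ⟨P, hP, e, he, h⟩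
    · exact Or.inr ⟨P, hP, h⟩
    · have heS : e ∈ S i := by
        by_contra heS
        rw [hX2 e heS] at h
        simp at h
      left
      rcases (hX3 e heS v h).2.2 with h' | h'
      · exact Or.inl ⟨i, by omega, hi, h'⟩
      · exact Or.inr ⟨i + 1, by omega, by omega, h'⟩
  · intro Q hQ w hw hwS
    obtain ⟨P, hP, v, hv, h⟩ := h5 Q hQ w hw
    have hvS : v ∉ S i := by
      intro hvS
      rw [hX1 v hvS] at h
      obtain ⟨b, hb, hab, _⟩ := hL.tr hi hvS
      have : b = w := by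
        have := hab.2.2.symm.trans h
        simpa using this
      exact hL.nSS (show i + 1 ≤ M by omega) hj (by omega) hb (this ▸ hwS)
    rw [hX2 v hvS] at h
    have : v = w := by simpa using h
    exact ⟨P, hP, this ▸ hv⟩

/-- passing level `i` -/
theorem Ladder.pass {i j : ℕ} (hij : i + 1 < j) (hj : j ≤ M) {F : Finset (List V)} (hF : St G S R i j F) :
    ∃ F', St G S R (i + 1) j F' ∧ F'.card = F.card ∧ Rel S R M j F F' := by
  have hi : i < M := by omega
  refine hL.stepext hij hj hF.ne hF.fam (fun P hP v hv h => hF.out P hP v hv (h.mono (by omega) le_rfl)) hF.ends ?_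
  intro P hP a ha haS x hx hxa Q hQ hxQ
  obtain ⟨b, hb, hab, hm⟩ := hL.tr hi haS
  refine hF.out Q hQ x hxQ ?_
  rcases hm x hx with h | h | h
  · exact absurd h hxa
  · exact Or.inr ⟨i + 1, by omega, by omega, h ▸ hb⟩
  · exact Or.inl ⟨i, le_rfl, by omega, h⟩

/-- joining two paths at level `i` -/
theorem Ladder.joinstep {i j : ℕ} (hij : i + 1 < j) (hj : j ≤ M) {F : Finset (List V)} (hF : St G S R i j F)
    (hno : ¬ One S i F) : ∃ F', St G S R (i + 1) j F' ∧ F'.card + 1 = F.card ∧ Rel S R M j F F' := by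
  have hi : i < M := by omega
  unfold One at hno
  push Not at hno
  obtain ⟨P, hP, Q, hQ, v, w, hv, hw, hvS, hwS, hPQ⟩ := hno
  obtain ⟨x, hx, x', hx', hxx⟩ := hL.conn i hi v hvS w hwS
  obtain ⟨L, hLp, hLW⟩ := LP.Conn.exists_path hxx
  let own : V → List V → Prop := fun y P => P ∈ F ∧ ∃ a ∈ S i, IsEnd P a ∧ y ∈ T i a
  obtain ⟨Y, y, y', P1, P2, hY, ⟨hP1, a1, ha1, he1, hy1⟩, ⟨hP2, a2, ha2, he2, hy2⟩, hne, hYL, hYo⟩ :=
    split_own own L.length L x x' P Q le_rfl hLp ⟨hP, v, hvS, hv, hx⟩ ⟨hQ, w, hwS, hw, hx'⟩ hPQ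
  have hYR : ∀ z ∈ Y, z ∈ R i := fun z hz => hL.WR i hi (by simpa using hLW z (hYL z hz))
  have haa : a1 ≠ a2 := by
    rintro rfl
    exact hne (hF.fam.eq hP1 hP2 (end_mem he1) (end_mem he2))
  obtain ⟨A1, hA1, hA1m⟩ := hL.pre hi ha1 hy1 (hYR y (head_mem hY.2.1))
  obtain ⟨A2, hA2, hA2m⟩ := hL.pre hi ha2 hy2 (hYR y' (last_mem hY.2.2))
  have hdj : List.Disjoint (T i a1) (T i a2) := hL.disj i hi a1 ha1 a2 ha2 haa
  have hg1 : IsPB G (A1 ++ Y.tail) a1 y' := by
    refine glue hA1 hY (fun z hz hz' => ?_)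
    by_contra hzy
    by_cases hzy' : z = y'
    · exact hdj (hA1m z hz).1 (hzy' ▸ hy2)
    · exact hYo z hz' hzy hzy' P1 ⟨hP1, a1, ha1, he1, (hA1m z hz).1⟩
  have hg2 : IsPB G ((A1 ++ Y.tail) ++ A2.reverse.tail) a1 a2 := by
    refine glue hg1 (rev hA2) (fun z hz hz' => ?_)
    have hz2 := (hA2m z (List.mem_reverse.1 hz')).1
    rcases mem_glue hz with hz | hz
    · exact (hdj (hA1m z hz).1 hz2).elim
    · by_contra hzy
      by_cases hzy' : z = y
      · exact hdj (hzy' ▸ hy1) hz2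
      · exact hYo z hz hzy' hzy P2 ⟨hP2, a2, ha2, he2, hz2⟩
  set J := (A1 ++ Y.tail) ++ A2.reverse.tail with hJ
  have hJm : ∀ z ∈ J, z ∈ A1 ∨ z ∈ Y ∨ z ∈ A2 := by
    intro z hz
    rcases mem_glue hz with hz | hz
    · exact (mem_glue hz).imp id Or.inl
    · exact Or.inr (Or.inr (List.mem_reverse.1 hz))
  have hJR : ∀ z ∈ J, z = a1 ∨ z = a2 ∨ z ∈ R i := by
    intro z hz
    rcases hJm z hz with h | h | h
    · exact (hA1m z h).2.imp id Or.inr
    · exact Or.inr (Or.inr (hYR z h))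
    · exact Or.inr (hA2m z h).2
  have hJT : ∀ a ∈ S i, (∃ P ∈ F, IsEnd P a) → a ≠ a1 → a ≠ a2 → ∀ z ∈ J, z ∉ T i a := by
    intro a ha ⟨P', hP', he'⟩ hn1 hn2 z hz hzT
    rcases hJm z hz with h | h | h
    · exact hL.disj i hi a ha a1 ha1 hn1 hzT (hA1m z h).1
    · by_cases hzy : z = y
      · exact hL.disj i hi a ha a1 ha1 hn1 hzT (hzy ▸ hy1)
      · by_cases hzy' : z = y'
        · exact hL.disj i hi a ha a2 ha2 hn2 hzT (hzy' ▸ hy2)
        · exact hYo z h hzy hzy' P' ⟨hP', a, ha, he', hzT⟩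
    · exact hL.disj i hi a ha a2 ha2 hn2 hzT (hA2m z h).1
  have hRmid : ∀ z ∈ R i, Mid S R i j z := fun z hz => Or.inl ⟨i, le_rfl, by omega, hz⟩
  obtain ⟨F1, h1, h2, h3, h4, h5⟩ := join_fam hF.fam hP1 hP2 hne he1 he2 hg2 (by
    intro z hz hz1 hz2 P' hP' hzP
    rcases hJR z hz with h | h | h
    · exact hz1 h
    · exact hz2 h
    · exact hF.out P' hP' z hzP (hRmid z h))
  obtain ⟨F', h6, h7, h8⟩ := hL.stepext hij hj (F := F1) (by
      obtain ⟨Q1, hQ1, _⟩ := h3 P hP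
      exact ⟨Q1, hQ1⟩) h1 (by
      intro Q' hQ' z hz
      rcases h4 Q' hQ' z hz with h | ⟨P', hP', h⟩
      · rcases hJR z h with h | h | h
        · exact hL.not_mid_S hi hj (h ▸ ha1)
        · exact hL.not_mid_S hi hj (h ▸ ha2)
        · exact hL.not_mid_R hi hj h
      · exact fun hm => hF.out P' hP' z h (hm.mono (by omega) le_rfl)) (by
      intro Q' hQ' z hz
      obtain ⟨_, _, P', hP', h⟩ := h5 Q' hQ' z hz
      exact hF.ends P' hP' z h) (by
      intro Q1 hQ1 a ha haS z hz hza Q2 hQ2 hzQ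
      obtain ⟨hn1, hn2, P', hP', he'⟩ := h5 Q1 hQ1 a ha
      rcases h4 Q2 hQ2 z hzQ with h | ⟨P3, hP3, h⟩
      · exact hJT a haS ⟨P', hP', he'⟩ hn1 hn2 z h hz
      · obtain ⟨b, hb, hab, hm⟩ := hL.tr hi haS
        refine hF.out P3 hP3 z h ?_
        rcases hm z hz with h' | h' | h'
        · exact absurd h' hza
        · exact Or.inr ⟨i + 1, by omega, by omega, h' ▸ hb⟩
        · exact hRmid z h')
  refine ⟨F', h6, by omega, Rel.trans ⟨h3, ?_, ?_⟩ h8⟩
  · intro Q' hQ' z hz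
    rcases h4 Q' hQ' z hz with h | h
    · rcases hJR z h with h | h | h
      · exact Or.inr ⟨P1, hP1, h ▸ end_mem he1⟩
      · exact Or.inr ⟨P2, hP2, h ▸ end_mem he2⟩
      · exact Or.inl (Or.inl ⟨i, by omega, hi, h⟩)
    · exact Or.inr h
  · intro Q' hQ' z hz _
    exact (h5 Q' hQ' z hz).2.2

/-- joining at the left as long as possible -/
theorem Ladder.loop {j : ℕ} (hj : j ≤ M) : ∀ n : ℕ, ∀ (i : ℕ) (F : Finset (List V)), F.card = n → St G S R i j F →
    i + F.card < j → ∃ i' F', i ≤ i' ∧ i' + F'.card ≤ i + F.card ∧ St G S R i' j F' ∧ One S i' F' ∧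
      Rel S R M j F F' := by
  intro n
  induction n with
  | zero =>
    intro i F hn hF _
    exact absurd hn (Finset.card_pos.2 hF.ne).ne'
  | succ n ih =>
    intro i F hn hF hij
    by_cases h1 : One S i F
    · exact ⟨i, F, le_rfl, le_rfl, hF, h1, Rel.refl F⟩
    · obtain ⟨F1, h2, h3, h4⟩ := hL.joinstep (by omega) hj hF h1
      obtain ⟨i', F', h5, h6, h7, h8, h9⟩ := ih (i + 1) F1 (by omega) h2 (by omega)
      exact ⟨i', F', by omega, by omega, h7, h8, h4.trans h9⟩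

end ladder

end Pool.Agent.Lib.MP_688fd0_co.ASY.H85
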