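import Pool.Agent.Lib.MP_688fd0_co.LIN.Defs

/-!
Ladders (helper85): the combinatorial structure behind the tube case, and the statement of the joining lemma.
-/

set_option autoImplicit false

namespace Pool.Agent.Lib.MP_688fd0_co.ASY.H85

open Classical
open Pool.Agent.Lib.MP_688fd0_co.LP (IsP Conn Cyc Symm cay)
open Pool.Agent.Lib.MP_688fd0_co.LIN

universe u

/-- A ladder: sets `S 0, ..., S M` of `c` vertices each, regions `R 0, ..., R (M - 1)` (all these sets are pairwise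
disjoint), for `a ∈ S i` a path `T i a` through `R i` to `S (i + 1)`, disjoint for different `a`, and connected pieces
`W i` of `R i` met by all these paths. -/
structure Ladder {V : Type u} (G : SimpleGraph V) (c M : ℕ) (S R W : ℕ → Finset V) (T : ℕ → V → List V) : Prop where
  card : ∀ i ≤ M, (S i).card = c
  disS : ∀ i ≤ M, ∀ j ≤ M, i ≠ j → Disjoint (S i) (S j)
  disR : ∀ i < M, ∀ j < M, i ≠ j → Disjoint (R i) (R j)
  disSR : ∀ i ≤ M, ∀ j < M, Disjoint (S i) (R j)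
  WR : ∀ i < M, W i ⊆ R i
  path : ∀ i < M, ∀ a ∈ S i, IsP G (T i a) ∧ (T i a).head? = some a ∧
    (∃ b ∈ S (i + 1), (T i a).getLast? = some b) ∧ ∀ v ∈ (T i a).tail.dropLast, v ∈ R i
  disj : ∀ i < M, ∀ a ∈ S i, ∀ a' ∈ S i, a ≠ a' → List.Disjoint (T i a) (T i a')
  conn : ∀ i < M, ∀ a ∈ S i, ∀ a' ∈ S i, ∃ x ∈ T i a, ∃ x' ∈ T i a', Conn G (↑(W i) : Set V) x x'

/-- the inside of a ladder, between `S i` and `S j` -/
def Mid {V : Type u} (S R : ℕ → Finset V) (i j : ℕ) (v : V) : Prop :=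
  (∃ k, i ≤ k ∧ k < j ∧ v ∈ R k) ∨ ∃ k, i < k ∧ k < j ∧ v ∈ S k

/-- JOIN: disjoint paths outside the inside of a ladder with all their ends on `S 0` and `S M` can be closed up to ONE
cycle through the inside.  If all the ends are on `S 0`, the cycle meets `S (M - 1)`. -/
def JoinStatement : Prop := ∀ (V : Type u) [Fintype V] (G : SimpleGraph V) (c M : ℕ) (S R W : ℕ → Finset V)
  (T : ℕ → V → List V), Ladder G c M S R W T → 2 * c + 6 ≤ M → ∀ F : Finset (List V), F.Nonempty →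
  (∀ P ∈ F, IsP G P ∧ 2 ≤ P.length ∧ (∀ v ∈ P, ¬ Mid S R 0 M v) ∧ ∀ v, IsEnd P v → v ∈ S 0 ∨ v ∈ S M) → PD F →
  ∃ cy, Cyc G cy ∧ (∀ P ∈ F, ∀ v ∈ P, v ∈ cy) ∧ (∀ v ∈ cy, Mid S R 0 M v ∨ ∃ P ∈ F, v ∈ P) ∧
    ((∀ P ∈ F, ∀ v, IsEnd P v → v ∈ S 0) → ∃ v ∈ cy, v ∈ S (M - 1))

end Pool.Agent.Lib.MP_688fd0_co.ASY.H85
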