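import Pool.Agent.Lib.MP_688fd0_co.LIN.H85.StepA

/-!
Module STEPA3 (helper85): StepA from an arbitrary connection lemma (degree-free version with `d = 0`, `A = 16`).
-/

set_option autoImplicit false

namespace Pool.Agent.Lib.MP_688fd0_co.ASY.H85

open Classical
open Pool.Agent.Lib.MP_688fd0_co.LP (IsP Conn Cyc Symm cay)
open Pool.Agent.Lib.MP_688fd0_co.LIN
open Pool.Agent.Lib.MP_688fd0_co.LIN.H85

universe u

/-- Conclusion of the connection lemma: disjoint connections from classes in `M` to classes outside `M`, at most `q`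
from each class, at least `q |I| / A` of them. -/
def Conns {V : Type u} [Fintype V] (G H : SimpleGraph V) (I : Finset (Finset V)) (q A : ℕ) : Prop :=
  ∃ (M : Finset (Finset V)) (m : ℕ) (Q : Fin m → List V) (src tgt : Fin m → Finset V), M ⊆ I ∧
    q * I.card ≤ A * m ∧
    (∀ t, src t ∈ M ∧ tgt t ∉ M ∧ IsConn G (hcls H) (src t) (Q t) ∧
      ∃ b, (Q t).getLast? = some b ∧ hcls H b = some (tgt t)) ∧
    (∀ s t, s ≠ t → List.Disjoint (Q s) (Q t)) ∧
    ∀ i, (Finset.univ.filter (fun t => src t = i)).card ≤ q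

/-- More than half of the cycles are short. -/
theorem short_count' {V : Type u} [Fintype V] {H : SimpleGraph V} (hMass : MassStatement.{u}) (l K : ℕ)
    (hl : 1 ≤ K * l) (hN : 1 ≤ ncyc H) (hp : (cov H).card ≤ K * l * ncyc H) :
    ncyc H < 2 * ((cycs H).filter (fun S => S.card ≤ 2 * K * l)).card := by
  have h1 := hMass V H
  have h2 := Finset.card_filter_add_card_filter_not (s := cycs H) (fun S => S.card ≤ 2 * K * l)
  have h3 : ((cycs H).filter (fun S => ¬ S.card ≤ 2 * K * l)).card * (2 * K * l + 1) ≤ (cov H).card := by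
    rw [← h1, ← smul_eq_mul, ← Finset.sum_const]
    calc _ ≤ ∑ S ∈ (cycs H).filter (fun S => ¬ S.card ≤ 2 * K * l), S.card := by
          apply Finset.sum_le_sum
          intro S hS
          have := (Finset.mem_filter.1 hS).2
          omega
      _ ≤ _ := Finset.sum_le_sum_of_subset (Finset.filter_subset _ _)
  set X := ((cycs H).filter (fun S => ¬ S.card ≤ 2 * K * l)).card with hX
  unfold ncyc at hN hp ⊢
  rcases Nat.eq_zero_or_pos X with h0 | h0
  · omega
  · have h4 : (K * l) * (2 * X) + X ≤ (K * l) * (cycs H).card := by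
      calc _ = X * (2 * K * l + 1) := by ring
        _ ≤ _ := h3.trans hp
    have h5 : (K * l) * (2 * X) < (K * l) * (cycs H).card := by omega
    have h6 := Nat.lt_of_mul_lt_mul_left h5
    omega

/-- General form of StepA: it is enough to have the connection lemma for every family `I` of at least half of the
cycles. -/
theorem stepa_gen (hM : MergeStatement.{u}) (hOpt : OptStatement.{u}) (hS : SepStatement.{u})
    (hMass : MassStatement.{u}) {V : Type u} [Fintype V] (G H : SimpleGraph V) (d l K q A : ℕ) (W : Finset (List V))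
    (hO : Opt G l H) (hK : 1 ≤ K) (hl : 16 ≤ l) (hA0 : 1 ≤ A) (hA : A ≤ 96 * (d + 1))
    (hN : 1 ≤ ncyc H) (hI : ∀ I ⊆ cycs H, ncyc H < 2 * I.card → Conns G H I q A)
    (hq : 2 ^ 48 * (d + 1) ^ 2 * K ^ 3 * A ≤ q) (hp : (cov H).card ≤ K * l * ncyc H)
    (hW : ∀ l' ∈ W, l' ≠ [] ∧ l'.Nodup ∧ l'.IsChain H.Adj ∧ l'.length ≤ l / 16 ∧ ∀ v ∈ l', v ∈ cov H)
    (hWc : ∀ v ∈ cov H, ∃ l' ∈ W, v ∈ l')
    (hWn : ∀ v ∈ cov H, (l / 16) * (W.filter (fun l' => ∀ x ∈ l', H.Reachable v x)).card ≤ 2 * (cyc H v).card) :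
    ∃ (M' : Finset (Finset V)) (Kp : Finset (List V)),
      Kept G H (2 ^ 20 * (d + 1) * K * (l / 16)) (49152 * (d + 1) * K) W M' Kp ∧
        ncyc H ≤ 384 * (d + 1) * M'.card := by
  have hlong : ∀ v ∈ cov H, l ≤ (cyc H v).card := fun v hv => (((hOpt V G l).2 H hO).1 v hv).1
  obtain ⟨I, hIdef⟩ : ∃ I, I = (cycs H).filter (fun S => S.card ≤ 2 * K * l) := ⟨_, rfl⟩
  have hIN' : ncyc H < 2 * I.card := by
    rw [hIdef]
    exact short_count' hMass l K (Nat.mul_pos hK (by omega)) hN hp
  have hIN : ncyc H ≤ 2 * I.card := hIN'.le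
  have hIc : ∀ S ∈ I, S ∈ cycs H ∧ S.card ≤ 2 * K * l := by
    intro S h
    rw [hIdef] at h
    exact Finset.mem_filter.1 h
  obtain ⟨M, m, Q, src, tgt, hMI, hm, hQ, hdj, hcap'⟩ := hI I (by rw [hIdef]; exact Finset.filter_subset _ _) hIN'
  obtain ⟨thr, hthr⟩ : ∃ thr, thr = q / (2 * A) := ⟨_, rfl⟩
  obtain ⟨Good, hGood⟩ : ∃ Good, Good = M.filter (fun S => thr ≤ (Finset.univ.filter (fun t => src t = S)).card) :=
    ⟨_, rfl⟩
  have hthr1 : 2 * A * thr ≤ q := by
    rw [hthr]
    exact Nat.mul_div_le _ _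
  have hthr2 : 2 ^ 47 * (d + 1) ^ 2 * K ^ 3 ≤ thr := by
    rw [hthr, Nat.le_div_iff_mul_le (by positivity)]
    calc _ = 2 ^ 48 * (d + 1) ^ 2 * K ^ 3 * A := by ring
      _ ≤ q := hq
  have hqpos : 0 < q := by
    have : 0 < 2 ^ 48 * (d + 1) ^ 2 * K ^ 3 * A := by positivity
    omega
  have hGM : Good ⊆ M := by rw [hGood]; exact Finset.filter_subset _ _
  -- many good movers
  have hmany : I.card ≤ 2 * A * Good.card := by
    have h1 : m ≤ q * Good.card + thr * I.card := by
      calc m = ∑ S ∈ M, (Finset.univ.filter (fun t => src t = S)).card := by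
            rw [← Finset.card_eq_sum_card_fiberwise (f := src) (s := Finset.univ) (t := M)
              (fun t _ => (hQ t).1)]
            simp
        _ = ∑ S ∈ Good, (Finset.univ.filter (fun t => src t = S)).card +
            ∑ S ∈ M.filter (fun S => ¬ thr ≤ (Finset.univ.filter (fun t => src t = S)).card),
              (Finset.univ.filter (fun t => src t = S)).card := by
            rw [hGood, Finset.sum_filter_add_sum_filter_not]
        _ ≤ ∑ S ∈ Good, q + ∑ S ∈ M.filter (fun S => ¬ thr ≤ (Finset.univ.filter (fun t => src t = S)).card),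
              thr := by
            apply Nat.add_le_add
            · exact Finset.sum_le_sum (fun S _ => hcap' S)
            · apply Finset.sum_le_sum
              intro S hS
              have := (Finset.mem_filter.1 hS).2
              omega
        _ = q * Good.card +
              thr * (M.filter (fun S => ¬ thr ≤ (Finset.univ.filter (fun t => src t = S)).card)).card := by
            simp only [Finset.sum_const, smul_eq_mul]
            ring
        _ ≤ _ := by
            gcongr
            exact (Finset.filter_subset _ _).trans hMI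
    have h2 : q * (2 * I.card) ≤ q * (2 * A * Good.card + I.card) := by
      calc q * (2 * I.card) = 2 * (q * I.card) := by ring
        _ ≤ 2 * (A * m) := by gcongr
        _ ≤ 2 * (A * (q * Good.card + thr * I.card)) := by gcongr
        _ = q * (2 * A * Good.card) + (2 * A * thr) * I.card := by ring
        _ ≤ q * (2 * A * Good.card) + q * I.card := by gcongr
        _ = _ := by ring
    have h3 := Nat.le_of_mul_le_mul_left h2 hqpos
    omega
  -- the kept connections of every good mover
  have hkeep : ∀ S : Finset V, ∃ T' : Finset (Fin m), S ∈ Good → ((∀ t ∈ T', src t = S) ∧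
      T'.card = 49152 * (d + 1) * K ∧ (∃ W0 ∈ W, ∀ t ∈ T', ∃ a ∈ W0, (Q t).head? = some a) ∧
      ∀ s ∈ T', ∀ t ∈ T', s ≠ t → ∀ b b', (Q s).getLast? = some b → (Q t).getLast? = some b' →
        H.Reachable b b' → 2 ^ 20 * (d + 1) * K * (l / 16) ≤ H.dist b b') := by
    intro S
    by_cases hSG : S ∈ Good
    · obtain ⟨h1, h2⟩ := hIc S (hMI (hGM hSG))
      obtain ⟨T', hT'1, hT'2, hT'3, hT'4⟩ := one_mover d l K W hM hS hO hK hl hlong hW hWc hWn h1 h2
        (Finset.univ.filter (fun t => src t = S)) Q (by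
          intro t ht
          have := (Finset.mem_filter.1 ht).2
          rw [← this]
          exact (hQ t).2.2.1) (fun s _ t _ hst => hdj s t hst) (by
          refine hthr2.trans ?_
          rw [hGood] at hSG
          exact (Finset.mem_filter.1 hSG).2)
      exact ⟨T', fun _ => ⟨fun t ht => (Finset.mem_filter.1 (hT'1 ht)).2, hT'2, hT'3, hT'4⟩⟩
    · exact ⟨∅, fun h => absurd h hSG⟩
  choose T hT using hkeep
  have hQinj : Function.Injective Q := by
    intro s t hst
    by_contra hne
    obtain ⟨a, ha, _⟩ := (hQ s).2.2.1.2.1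
    have h1 : a ∈ Q s := List.mem_of_head? ha
    exact hdj s t hne h1 (hst ▸ h1)
  have hsrc : ∀ t S, IsConn G (hcls H) S (Q t) → src t = S := by
    intro t S h
    obtain ⟨a, ha, ha'⟩ := h.2.1
    obtain ⟨b, hb, hb'⟩ := (hQ t).2.2.1.2.1
    rw [ha] at hb
    rw [← Option.some.inj hb, ha'] at hb'
    exact (Option.some.inj hb').symm
  have hmem : ∀ x ∈ (Good.biUnion T).image Q, ∃ t, x = Q t ∧ src t ∈ Good ∧ t ∈ T (src t) := by
    intro x hx
    obtain ⟨t, ht, rfl⟩ := Finset.mem_image.1 hx
    obtain ⟨S, hSG, htS⟩ := Finset.mem_biUnion.1 ht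
    have := (hT S hSG).1 t htS
    exact ⟨t, rfl, by rw [this]; exact hSG, by rw [this]; exact htS⟩
  have hhead : ∀ t a, (Q t).head? = some a → a ∈ cov H ∧ cyc H a = src t := by
    intro t a ha
    obtain ⟨b, hb, hb'⟩ := (hQ t).2.2.1.2.1
    rw [ha] at hb
    rw [← Option.some.inj hb] at hb'
    exact hcls_some.1 hb'
  refine ⟨Good, (Good.biUnion T).image Q, ?_, ?_⟩
  · refine ⟨?_, ?_, ?_, ?_, ?_, ?_, ?_⟩
    · intro S h
      exact (hIc S (hMI (hGM h))).1
    · intro x hx
      obtain ⟨t, rfl, h1, h2⟩ := hmem x hx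
      exact ⟨src t, h1, (hQ t).2.2.1⟩
    · intro x hx y hy hxy
      obtain ⟨s, rfl, _⟩ := hmem x hx
      obtain ⟨t, rfl, _⟩ := hmem y hy
      exact hdj s t (fun h => hxy (by rw [h]))
    · intro x hx b hb hbG
      obtain ⟨t, rfl, _⟩ := hmem x hx
      obtain ⟨b', hb', hcb⟩ := (hQ t).2.2.2
      rw [hb] at hb'
      rw [← Option.some.inj hb'] at hcb
      have := (hcls_some.1 hcb).2
      rw [this] at hbG
      exact (hQ t).2.1 (hGM hbG)
    · intro S hSG
      have h1 : ((Good.biUnion T).image Q).filter (fun l => IsConn G (hcls H) S l) = (T S).image Q := by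
        ext x
        rw [Finset.mem_filter, Finset.mem_image, Finset.mem_image]
        constructor
        · rintro ⟨⟨t, ht, rfl⟩, hx⟩
          obtain ⟨S', hS', htS'⟩ := Finset.mem_biUnion.1 ht
          have h2 := hsrc t S hx
          have h3 := (hT S' hS').1 t htS'
          refine ⟨t, ?_, rfl⟩
          rw [← h2, h3]
          exact htS'
        · rintro ⟨t, ht, rfl⟩
          refine ⟨⟨t, Finset.mem_biUnion.2 ⟨S, hSG, ht⟩, rfl⟩, ?_⟩
          rw [← (hT S hSG).1 t ht]
          exact (hQ t).2.2.1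
      rw [h1, Finset.card_image_of_injective _ hQinj]
      exact (hT S hSG).2.1
    · intro x hx y hy a a' ha ha' hr
      obtain ⟨s, rfl, h1, h2⟩ := hmem x hx
      obtain ⟨t, rfl, h3, h4⟩ := hmem y hy
      have h5 : src s = src t := by
        rw [← (hhead s a ha).2, ← (hhead t a' ha').2]
        exact cyc_eq_iff.2 hr
      obtain ⟨W0, hW0, hW0'⟩ := (hT (src s) h1).2.2.1
      refine ⟨W0, hW0, ?_, ?_⟩
      · obtain ⟨c, hc, hc'⟩ := hW0' s h2
        rw [ha] at hc'
        rw [Option.some.inj hc']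
        exact hc
      · obtain ⟨c, hc, hc'⟩ := hW0' t (by rw [h5]; exact h4)
        rw [ha'] at hc'
        rw [Option.some.inj hc']
        exact hc
    · intro x hx y hy hxy a a' b b' ha ha' hr hb hb' hr'
      obtain ⟨s, rfl, h1, h2⟩ := hmem x hx
      obtain ⟨t, rfl, h3, h4⟩ := hmem y hy
      have h5 : src s = src t := by
        rw [← (hhead s a ha).2, ← (hhead t a' ha').2]
        exact cyc_eq_iff.2 hr
      exact (hT (src s) h1).2.2.2 s h2 t (by rw [h5]; exact h4) (fun h => hxy (by rw [h])) b b' hb hb' hr'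
  · calc ncyc H ≤ 2 * I.card := hIN
      _ ≤ 2 * (2 * A * Good.card) := by gcongr
      _ ≤ 2 * (2 * (96 * (d + 1)) * Good.card) := by gcongr
      _ = 384 * (d + 1) * Good.card := by ring

end Pool.Agent.Lib.MP_688fd0_co.ASY.H85
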